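import Mathlib

/-! Linear, elementary and tame automorphisms of a free associative algebra. -/

namespace Pool.Agent.Lib.MP_1cf7f7_al

variable {k : Type} [Field k] {n : ℕ}

/-- An automorphism of `k⟨z_1, …, z_n⟩` is linear if it sends every generator to a linear
combination of the generators. -/
def IsLinear (g : FreeAlgebra k (Fin n) ≃ₐ[k] FreeAlgebra k (Fin n)) : Prop :=
  ∀ i, g (FreeAlgebra.ι k i) ∈ Submodule.span k (Set.range (FreeAlgebra.ι k (X := Fin n)))

/-- An automorphism is elementary if, for some `i`, it sends `z_i` to `c z_i + f` with `c ≠ 0`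
and `f` a polynomial in the other generators, and fixes the other generators. -/
def IsElementary (g : FreeAlgebra k (Fin n) ≃ₐ[k] FreeAlgebra k (Fin n)) : Prop :=
  ∃ (i : Fin n) (c : k) (f : FreeAlgebra k (Fin n)), c ≠ 0 ∧
    f ∈ Algebra.adjoin k (FreeAlgebra.ι k '' {j | j ≠ i}) ∧
    g (FreeAlgebra.ι k i) = c • FreeAlgebra.ι k i + f ∧
    ∀ j, j ≠ i → g (FreeAlgebra.ι k j) = FreeAlgebra.ι k j

/-- The tame group: products of linear and elementary automorphisms. -/
def Tame (k : Type) [Field k] (n : ℕ) :
    Subgroup (FreeAlgebra k (Fin n) ≃ₐ[k] FreeAlgebra k (Fin n)) :=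
  Subgroup.closure {g | IsLinear g ∨ IsElementary g}

/-- An automorphism is palindromic if the images of the generators are fixed by the reversal
anti-automorphism `star` (which fixes scalars and generators and reverses words), i.e. if it
commutes with the reversal. Linear automorphisms are palindromic. -/
def IsPalindromic (g : FreeAlgebra k (Fin n) ≃ₐ[k] FreeAlgebra k (Fin n)) : Prop :=
  ∀ i, star (g (FreeAlgebra.ι k i)) = g (FreeAlgebra.ι k i)

/-- The group generated by those automorphisms `g` which map the subalgebra `k[l]` into itself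
and are linear, palindromic, or conjugate to an elementary automorphism by a linear or
palindromic one. -/
def TameOver (l : FreeAlgebra k (Fin n)) :
    Subgroup (FreeAlgebra k (Fin n) ≃ₐ[k] FreeAlgebra k (Fin n)) :=
  Subgroup.closure {g | g l ∈ Algebra.adjoin k {l} ∧ (IsLinear g ∨ IsPalindromic g ∨
    ∃ h e, (IsLinear h ∨ IsPalindromic h) ∧ IsElementary e ∧ g = h⁻¹ * e * h)}

end Pool.Agent.Lib.MP_1cf7f7_al
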