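import Pool.Agent.Lib.MP_1cf7f7_al.CommDefs

/-! The four variable Anick automorphism of the polynomial ring is tame. -/

namespace Pool.Agent.Lib.MP_1cf7f7_al.Comm

open MvPolynomial

variable {k : Type} [Field k] {n : ℕ}

theorem aeval_update {i : Fin n} {f : MvPolynomial (Fin n) k} (p : MvPolynomial (Fin n) k)
    (hf : f ∈ Algebra.adjoin k (X '' {j | j ≠ i})) : aeval (Function.update X i p) f = f := by
  induction hf using Algebra.adjoin_induction with
  | mem x hx =>
    obtain ⟨j, hj, rfl⟩ := hx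
    rw [aeval_X, Function.update_of_ne hj]
  | algebraMap r => exact AlgHom.commutes _ r
  | add x y _ _ hx hy => rw [map_add, hx, hy]
  | mul x y _ _ hx hy => rw [map_mul, hx, hy]

theorem exists_elem {m i : Fin n} (hi : m ≠ i) {c : k} (hc : c ≠ 0) {f : MvPolynomial (Fin n) k}
    (hf : f ∈ Algebra.adjoin k (X '' {j | j ≠ i})) :
    ∃ g ∈ TameFixing k m, g (X i) = c • X i + f ∧ ∀ j, j ≠ i → g (X j) = X j := by
  have h1 : (aeval (Function.update X i (c • X i + f))).comp
      (aeval (Function.update X i (c⁻¹ • (X i - f)))) = AlgHom.id k (MvPolynomial (Fin n) k) := by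
    ext1 j
    by_cases hj : j = i
    · subst hj
      simp only [AlgHom.comp_apply, aeval_X, Function.update_self, map_smul, map_sub,
        aeval_update _ hf, AlgHom.id_apply, add_sub_cancel_right, smul_smul, inv_mul_cancel₀ hc,
        one_smul]
    · simp [Function.update_of_ne hj]
  have h2 : (aeval (Function.update X i (c⁻¹ • (X i - f)))).comp
      (aeval (Function.update X i (c • X i + f))) = AlgHom.id k (MvPolynomial (Fin n) k) := by
    ext1 j
    by_cases hj : j = i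
    · subst hj
      simp only [AlgHom.comp_apply, aeval_X, Function.update_self, map_smul, map_add,
        aeval_update _ hf, AlgHom.id_apply, smul_smul, mul_inv_cancel₀ hc, one_smul,
        sub_add_cancel]
    · simp [Function.update_of_ne hj]
  have e1 : AlgEquiv.ofAlgHom _ _ h1 h2 (X i) = c • X i + f := by simp
  have e2 : ∀ j, j ≠ i → AlgEquiv.ofAlgHom _ _ h1 h2 (X j) = X j := fun j hj => by
    simp [Function.update_of_ne hj]
  exact ⟨AlgEquiv.ofAlgHom _ _ h1 h2,
    Subgroup.subset_closure ⟨Or.inr ⟨i, c, f, hc, hf, e1, e2⟩, e2 m hi⟩, e1, e2⟩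

theorem equiv_C (g : MvPolynomial (Fin n) k ≃ₐ[k] MvPolynomial (Fin n) k) (c : k) :
    g (C c) = C c := g.commutes c

theorem X_mem {i j : Fin n} (h : j ≠ i) :
    (X j : MvPolynomial (Fin n) k) ∈ Algebra.adjoin k (X '' {j | j ≠ i}) :=
  Algebra.subset_adjoin ⟨j, h, rfl⟩

theorem C_mem {i : Fin n} (c : k) :
    (C c : MvPolynomial (Fin n) k) ∈ Algebra.adjoin k (X '' {j | j ≠ i}) :=
  Subalgebra.algebraMap_mem _ c

/-- the triangular flow with time `a t + b t ^ 2` -/
theorem exists_flow {x y s t : Fin n} (hxy : x ≠ y) (hxs : x ≠ s) (hxt : x ≠ t) (hys : y ≠ s)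
    (hst : s ≠ t) (ε a b : k) :
    ∃ g ∈ TameFixing k y,
      g (X x) = X x + C ε * (2 * (C a * X t + C b * X t ^ 2) * X s +
        (C a * X t + C b * X t ^ 2) ^ 2 * X y) ∧
      g (X s) = X s + (C a * X t + C b * X t ^ 2) * X y ∧
      ∀ j, j ≠ x → j ≠ s → g (X j) = X j := by
  have hp : ∀ i : Fin n, t ≠ i → (C a * X t + C b * X t ^ 2 : MvPolynomial (Fin n) k) ∈
      Algebra.adjoin k (X '' {j | j ≠ i}) := fun i hi =>
    add_mem (mul_mem (C_mem a) (X_mem hi)) (mul_mem (C_mem b) (pow_mem (X_mem hi) 2))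
  obtain ⟨A, hA, a1, a2⟩ := exists_elem (k := k) hys one_ne_zero
    (mul_mem (hp s hst.symm) (X_mem hys))
  obtain ⟨B, hB, b1, b2⟩ := exists_elem (k := k) hxy.symm one_ne_zero
    (mul_mem (C_mem ε) (add_mem (mul_mem (mul_mem (ofNat_mem _ 2) (hp x hxt.symm))
      (X_mem hxs.symm)) (mul_mem (pow_mem (hp x hxt.symm) 2) (X_mem hxy.symm))))
  refine ⟨B * A, mul_mem hB hA, ?_, ?_, fun j h1 h2 => ?_⟩
  · rw [AlgEquiv.mul_apply, a2 x hxs, b1, one_smul]
  · rw [AlgEquiv.mul_apply, a1, one_smul]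
    simp only [map_add, map_mul, map_pow, b2 s hxs.symm, b2 t hxt.symm, b2 y hxy.symm,
      equiv_C]
  · rw [AlgEquiv.mul_apply, a2 j h2, b2 j h1]

/-- the Nagata type automorphism, which is tame because `t` is a free variable -/
theorem exists_nagata {x y s t : Fin n} (hxy : x ≠ y) (hxs : x ≠ s) (hxt : x ≠ t) (hys : y ≠ s)
    (hyt : y ≠ t) (hst : s ≠ t) (ε c : k) (w : MvPolynomial (Fin n) k)
    (hw : w = X x * X y - C ε * X s ^ 2 + C ε * X t ^ 2) :
    ∃ g ∈ TameFixing k y,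
      g (X x) = X x + C ε * (2 * (C c * w) * X s + (C c * w) ^ 2 * X y) ∧
      g (X s) = X s + C c * w * X y ∧ g (X t) = X t ∧ g (X y) = X y := by
  have hΔ : ∀ e : k, (C e * (X x * X y - C ε * X s ^ 2) : MvPolynomial (Fin n) k) ∈
      Algebra.adjoin k (X '' {j | j ≠ t}) := fun e =>
    mul_mem (C_mem e) (sub_mem (mul_mem (X_mem hxt) (X_mem hyt))
      (mul_mem (C_mem ε) (pow_mem (X_mem hst) 2)))
  obtain ⟨T, hT, t1, t2⟩ := exists_elem (k := k) hyt one_ne_zero (hΔ c)
  obtain ⟨T', hT', t1', t2'⟩ := exists_elem (k := k) hyt one_ne_zero (hΔ (-c))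
  obtain ⟨E, hE, e1, e2, e3⟩ := exists_flow (k := k) hxy hxs hxt hys hst ε 1 0
  obtain ⟨F, hF, f1, f2, f3⟩ := exists_flow (k := k) hxy hxs hxt hys hst ε (-1) (c * ε)
  have e4 := e3 t hxt.symm hst.symm
  have e5 := e3 y hxy.symm hys
  have f4 := f3 t hxt.symm hst.symm
  have f5 := f3 y hxy.symm hys
  rw [one_smul] at t1 t1'
  refine ⟨T * E * T' * F, mul_mem (mul_mem (mul_mem hT hE) hT') hF, ?_, ?_, ?_, ?_⟩ <;>
  · simp only [AlgEquiv.mul_apply, f1, f2, f4, f5, e1, e2, e4, e5, t1, t1', t2 x hxt, t2 y hyt,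
      t2 s hst, t2' x hxt, t2' y hyt, t2' s hst, map_add, map_mul, map_pow, map_sub, map_neg,
      map_ofNat, map_one, map_zero, equiv_C, hw]
    try ring

end Pool.Agent.Lib.MP_1cf7f7_al.Comm
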