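import Mathlib

/-! Linear, elementary and tame automorphisms of a polynomial ring. -/

namespace Pool.Agent.Lib.MP_1cf7f7_al.Comm

open MvPolynomial

variable {k : Type} [Field k] {n : ℕ}

/-- An automorphism of `k[z_1, …, z_n]` is linear if it sends every variable to a linear
combination of the variables. -/
def IsLinear (g : MvPolynomial (Fin n) k ≃ₐ[k] MvPolynomial (Fin n) k) : Prop :=
  ∀ i, g (X i) ∈ Submodule.span k (Set.range (X : Fin n → MvPolynomial (Fin n) k))

/-- An automorphism is elementary if, for some `i`, it sends `z_i` to `c z_i + f` with `c ≠ 0`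
and `f` a polynomial in the other variables, and fixes the other variables. -/
def IsElementary (g : MvPolynomial (Fin n) k ≃ₐ[k] MvPolynomial (Fin n) k) : Prop :=
  ∃ (i : Fin n) (c : k) (f : MvPolynomial (Fin n) k), c ≠ 0 ∧
    f ∈ Algebra.adjoin k (X '' {j | j ≠ i}) ∧
    g (X i) = c • X i + f ∧ ∀ j, j ≠ i → g (X j) = X j

/-- The group generated by the linear and elementary automorphisms which fix the variable
`z_m`. -/
noncomputable def TameFixing (k : Type) [Field k] {n : ℕ} (m : Fin n) :
    Subgroup (MvPolynomial (Fin n) k ≃ₐ[k] MvPolynomial (Fin n) k) :=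
  Subgroup.closure {g | (IsLinear g ∨ IsElementary g) ∧ g (X m) = X m}

end Pool.Agent.Lib.MP_1cf7f7_al.Comm
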