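import Pool.Agent.Lib.MP_1cf7f7_al.Defs
import Mathlib

-- part Pool.Agent.Lib.MP_1cf7f7_al.Jet
section

/-! Evaluation of the free algebra at upper triangular two by two matrices: the Jacobian
`J g P Q` of an automorphism at a pair of points. -/

namespace Pool.Agent.Lib.MP_1cf7f7_al

open FreeAlgebra

variable {k : Type} [Field k] {n : ℕ} {R : Type} [CommRing R] [Algebra k R]

/-- evaluation at a point -/
noncomputable def ev (P : Fin n → R) : FreeAlgebra k (Fin n) →ₐ[k] R := FreeAlgebra.lift k P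

@[simp] theorem ev_ι (P : Fin n → R) (i : Fin n) : ev (k := k) P (ι k i) = P i := by
  simp [ev]

/-- evaluation at triangular matrices -/
noncomputable def ev2 (P Q ξ : Fin n → R) :
    FreeAlgebra k (Fin n) →ₐ[k] Matrix (Fin 2) (Fin 2) R :=
  FreeAlgebra.lift k fun i => !![P i, ξ i; 0, Q i]

/-- the twisted derivation -/
noncomputable def DD (P Q ξ : Fin n → R) (f : FreeAlgebra k (Fin n)) : R := ev2 P Q ξ f 0 1

theorem ev2_eq (P Q ξ : Fin n → R) (f : FreeAlgebra k (Fin n)) :
    ev2 P Q ξ f = !![ev P f, DD P Q ξ f; 0, ev Q f] := by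
  suffices h : ev2 P Q ξ f 0 0 = ev P f ∧ ev2 P Q ξ f 1 0 = 0 ∧ ev2 P Q ξ f 1 1 = ev Q f by
    ext i j
    fin_cases i <;> fin_cases j <;> simp [h.1, h.2.1, h.2.2, DD]
  induction f using FreeAlgebra.induction with
  | grade0 r => simp [Matrix.algebraMap_matrix_apply]
  | grade1 i => simp [ev2]
  | mul a b ha hb =>
    simp [Matrix.mul_apply, Fin.sum_univ_two, ha.1, ha.2.1, ha.2.2, hb.1, hb.2.1, hb.2.2]
  | add a b ha hb => simp [ha.1, ha.2.1, ha.2.2, hb.1, hb.2.1, hb.2.2]

@[simp] theorem DD_ι (P Q ξ : Fin n → R) (i : Fin n) : DD (k := k) P Q ξ (ι k i) = ξ i := by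
  simp [DD, ev2]

@[simp] theorem DD_algebraMap (P Q ξ : Fin n → R) (c : k) :
    DD P Q ξ (algebraMap k (FreeAlgebra k (Fin n)) c) = 0 := by
  simp [DD, Matrix.algebraMap_matrix_apply]

@[simp] theorem DD_add (P Q ξ : Fin n → R) (f g : FreeAlgebra k (Fin n)) :
    DD P Q ξ (f + g) = DD P Q ξ f + DD P Q ξ g := by
  simp [DD]

@[simp] theorem DD_sub (P Q ξ : Fin n → R) (f g : FreeAlgebra k (Fin n)) :
    DD P Q ξ (f - g) = DD P Q ξ f - DD P Q ξ g := by
  simp [DD]

@[simp] theorem DD_zero (P Q ξ : Fin n → R) : DD P Q ξ (0 : FreeAlgebra k (Fin n)) = 0 := by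
  simp [DD]

@[simp] theorem DD_smul (P Q ξ : Fin n → R) (c : k) (f : FreeAlgebra k (Fin n)) :
    DD P Q ξ (c • f) = c • DD P Q ξ f := by
  simp [DD]

@[simp] theorem DD_mul (P Q ξ : Fin n → R) (f g : FreeAlgebra k (Fin n)) :
    DD P Q ξ (f * g) = ev P f * DD P Q ξ g + DD P Q ξ f * ev Q g := by
  have h : DD P Q ξ (f * g) = (ev2 P Q ξ f * ev2 P Q ξ g) 0 1 := by simp [DD]
  rw [h, ev2_eq P Q ξ f, ev2_eq P Q ξ g]
  simp [Matrix.mul_apply, Fin.sum_univ_two]

/-- the twisted derivation as a linear form in the tangent vector -/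
noncomputable def DL (P Q : Fin n → R) (f : FreeAlgebra k (Fin n)) : (Fin n → R) →ₗ[R] R where
  toFun ξ := DD P Q ξ f
  map_add' ξ η := by
    induction f using FreeAlgebra.induction with
    | grade0 r => simp
    | grade1 i => simp
    | mul a b ha hb => simp only [DD_mul, ha, hb]; ring
    | add a b ha hb => simp only [DD_add, ha, hb]; ring
  map_smul' c ξ := by
    induction f using FreeAlgebra.induction with
    | grade0 r => simp
    | grade1 i => simp
    | mul a b ha hb =>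
      simp only [DD_mul, RingHom.id_apply, smul_eq_mul] at ha hb ⊢
      rw [ha, hb]; ring
    | add a b ha hb =>
      simp only [DD_add, RingHom.id_apply, smul_eq_mul] at ha hb ⊢
      rw [ha, hb]; ring

@[simp] theorem DL_apply (P Q ξ : Fin n → R) (f : FreeAlgebra k (Fin n)) :
    DL P Q f ξ = DD P Q ξ f := rfl

theorem DD_chord (P Q : Fin n → R) (f : FreeAlgebra k (Fin n)) :
    DD P Q (P - Q) f = ev P f - ev Q f := by
  induction f using FreeAlgebra.induction with
  | grade0 r => simp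
  | grade1 i => simp
  | mul a b ha hb => simp only [DD_mul, ha, hb, map_mul]; ring
  | add a b ha hb => simp only [DD_add, ha, hb, map_add]; ring

theorem DD_chord' (P Q : Fin n → R) (f : FreeAlgebra k (Fin n)) :
    DD Q P (P - Q) f = ev P f - ev Q f := by
  have h := (DL Q P f).map_neg (Q - P)
  simp only [DL_apply, neg_sub] at h
  rw [h, DD_chord]; ring

theorem ev_congr (I : Ideal R) {P Q : Fin n → R} (h : ∀ i, P i - Q i ∈ I)
    (f : FreeAlgebra k (Fin n)) : ev P f - ev Q f ∈ I := by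
  induction f using FreeAlgebra.induction with
  | grade0 r => simp
  | grade1 i => simpa using h i
  | mul a b ha hb =>
    have : ev P (a * b) - ev Q (a * b) =
        ev P a * (ev P b - ev Q b) + (ev P a - ev Q a) * ev Q b := by
      simp only [map_mul]; ring
    rw [this]
    exact I.add_mem (I.mul_mem_left _ hb) (I.mul_mem_right _ ha)
  | add a b ha hb =>
    have : ev P (a + b) - ev Q (a + b) = (ev P a - ev Q a) + (ev P b - ev Q b) := by
      simp only [map_add]; ring
    rw [this]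
    exact I.add_mem ha hb

theorem DD_congr (I : Ideal R) {P Q : Fin n → R} (h : ∀ i, P i - Q i ∈ I) (ξ : Fin n → R)
    (f : FreeAlgebra k (Fin n)) : DD P Q ξ f - DD Q P ξ f ∈ I := by
  induction f using FreeAlgebra.induction with
  | grade0 r => simp
  | grade1 i => simp
  | mul a b ha hb =>
    have : DD P Q ξ (a * b) - DD Q P ξ (a * b) =
        ev P a * (DD P Q ξ b - DD Q P ξ b) + (DD P Q ξ a - DD Q P ξ a) * ev Q b +
          (ev P a - ev Q a) * DD Q P ξ b - DD Q P ξ a * (ev P b - ev Q b) := by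
      simp only [DD_mul]; ring
    rw [this]
    exact I.sub_mem (I.add_mem (I.add_mem (I.mul_mem_left _ hb) (I.mul_mem_right _ ha))
      (I.mul_mem_right _ (ev_congr I h a))) (I.mul_mem_left _ (ev_congr I h b))
  | add a b ha hb =>
    have : DD P Q ξ (a + b) - DD Q P ξ (a + b) =
        (DD P Q ξ a - DD Q P ξ a) + (DD P Q ξ b - DD Q P ξ b) := by
      simp only [DD_add]; ring
    rw [this]
    exact I.add_mem ha hb

/-- the group of automorphisms -/
abbrev Aut (k : Type) [Field k] (n : ℕ) := FreeAlgebra k (Fin n) ≃ₐ[k] FreeAlgebra k (Fin n)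

/-- action on points -/
noncomputable def act (g : Aut k n) (P : Fin n → R) : Fin n → R := fun i => ev P (g (ι k i))

/-- the Jacobian as a function -/
noncomputable def Jf (g : Aut k n) (P Q ξ : Fin n → R) : Fin n → R :=
  fun i => DD P Q ξ (g (ι k i))

theorem ev2_comp (g : Aut k n) (P Q ξ : Fin n → R) (f : FreeAlgebra k (Fin n)) :
    ev2 P Q ξ (g f) = ev2 (act g P) (act g Q) (Jf g P Q ξ) f := by
  have : (ev2 P Q ξ).comp (g : FreeAlgebra k (Fin n) →ₐ[k] FreeAlgebra k (Fin n)) =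
      ev2 (act g P) (act g Q) (Jf g P Q ξ) := by
    apply FreeAlgebra.hom_ext
    funext i
    simp only [Function.comp, AlgHom.comp_apply]
    rw [ev2_eq]
    simp [ev2, act, Jf]
  exact DFunLike.congr_fun this f

theorem ev_comp (g : Aut k n) (P : Fin n → R) (f : FreeAlgebra k (Fin n)) :
    ev P (g f) = ev (act g P) f := by
  have h := ev2_comp g P P 0 f
  rw [ev2_eq, ev2_eq] at h
  simpa using congrFun (congrFun h 0) 0

theorem DD_comp (g : Aut k n) (P Q ξ : Fin n → R) (f : FreeAlgebra k (Fin n)) :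
    DD P Q ξ (g f) = DD (act g P) (act g Q) (Jf g P Q ξ) f := by
  unfold DD
  rw [ev2_comp]

theorem act_mul (g h : Aut k n) (P : Fin n → R) : act (g * h) P = act h (act g P) := by
  funext i
  simp only [act, AlgEquiv.mul_apply]
  rw [ev_comp]

theorem act_one (P : Fin n → R) : act (1 : Aut k n) P = P := by
  funext i
  simp [act]

theorem act_inv (g : Aut k n) (P : Fin n → R) : act g⁻¹ (act g P) = P := by
  rw [← act_mul, mul_inv_cancel, act_one]

theorem act_inv' (g : Aut k n) (P : Fin n → R) : act g (act g⁻¹ P) = P := by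
  rw [← act_mul, inv_mul_cancel, act_one]

theorem Jf_mul (g h : Aut k n) (P Q ξ : Fin n → R) :
    Jf (g * h) P Q ξ = Jf h (act g P) (act g Q) (Jf g P Q ξ) := by
  funext i
  simp only [Jf, AlgEquiv.mul_apply]
  rw [DD_comp]

theorem Jf_one (P Q ξ : Fin n → R) : Jf (1 : Aut k n) P Q ξ = ξ := by
  funext i
  simp [Jf]

/-- the Jacobian at a pair of points -/
noncomputable def J (g : Aut k n) (P Q : Fin n → R) : (Fin n → R) ≃ₗ[R] (Fin n → R) where
  toFun := Jf g P Q
  map_add' ξ η := by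
    funext i
    exact (DL P Q (g (ι k i))).map_add ξ η
  map_smul' c ξ := by
    funext i
    exact (DL P Q (g (ι k i))).map_smul c ξ
  invFun := Jf g⁻¹ (act g P) (act g Q)
  left_inv ξ := by rw [← Jf_mul, mul_inv_cancel, Jf_one]
  right_inv ξ := by
    have h := Jf_mul g⁻¹ g (act g P) (act g Q) ξ
    rw [act_inv, act_inv, inv_mul_cancel, Jf_one] at h
    exact h.symm

theorem J_apply (g : Aut k n) (P Q ξ : Fin n → R) (i : Fin n) :
    J g P Q ξ i = DD P Q ξ (g (ι k i)) := rfl

theorem J_mul (g h : Aut k n) (P Q : Fin n → R) :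
    J (g * h) P Q = J h (act g P) (act g Q) * J g P Q := by
  ext ξ : 1
  exact Jf_mul g h P Q ξ

theorem J_one (P Q : Fin n → R) : J (1 : Aut k n) P Q = 1 := by
  ext ξ : 1
  exact Jf_one P Q ξ

theorem J_inv (g : Aut k n) (P Q : Fin n → R) :
    J g⁻¹ (act g P) (act g Q) = (J g P Q)⁻¹ := by
  rw [eq_inv_iff_mul_eq_one, ← J_mul, mul_inv_cancel, J_one]

theorem J_chord (g : Aut k n) (P Q : Fin n → R) : J g Q P (P - Q) = act g P - act g Q := by
  funext i
  rw [J_apply, DD_chord']
  rfl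

theorem act_congr (I : Ideal R) {P Q : Fin n → R} (h : ∀ i, P i - Q i ∈ I) (g : Aut k n) :
    ∀ i, act g P i - act g Q i ∈ I := fun _ => ev_congr I h _

end Pool.Agent.Lib.MP_1cf7f7_al
end

-- part Pool.Agent.Lib.MP_1cf7f7_al.Core
section

/-! For a tame automorphism, the quotient of the Jacobians at `(P, Q)` and at `(Q, P)` is a
product of transvections. -/

namespace Pool.Agent.Lib.MP_1cf7f7_al

open FreeAlgebra

variable {k : Type} [Field k] {n : ℕ} {R : Type} [CommRing R] [Algebra k R]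

/-- stabiliser of the kernel of a linear form -/
def Hyp (lam : (Fin n → R) →ₗ[R] R) : Subgroup ((Fin n → R) ≃ₗ[R] (Fin n → R)) where
  carrier := {M | ∀ ξ, lam (M ξ) = 0 ↔ lam ξ = 0}
  one_mem' := fun _ => Iff.rfl
  mul_mem' := fun {a b} ha hb ξ => (ha (b ξ)).trans (hb ξ)
  inv_mem' := fun {a} ha ξ => by
    have h := ha (a⁻¹ ξ)
    have e : a (a⁻¹ ξ) = ξ := a.apply_symm_apply ξ
    rw [e] at h
    exact h.symm

/-- transvections congruent to one modulo `I` which fix `θ` -/
def Tv (I : Ideal R) (θ : Fin n → R) (M : (Fin n → R) ≃ₗ[R] (Fin n → R)) : Prop :=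
  ∃ (c : Fin n → R) (r : (Fin n → R) →ₗ[R] R), (∀ ξ, M ξ = ξ + r ξ • c) ∧ r c = 0 ∧ r θ = 0 ∧
    ∀ ξ, r ξ ∈ I

theorem Tv.conj {I : Ideal R} {θ θ' : Fin n → R} {M N : (Fin n → R) ≃ₗ[R] (Fin n → R)}
    (h : Tv I θ' N) (hM : M θ = θ') : Tv I θ (M⁻¹ * N * M) := by
  obtain ⟨c, r, h1, h2, h3, h4⟩ := h
  refine ⟨M.symm c, r ∘ₗ (M : (Fin n → R) →ₗ[R] (Fin n → R)), fun ξ => ?_, ?_, ?_, fun ξ => h4 _⟩
  · change M.symm (N (M ξ)) = _
    rw [h1, map_add, map_smul, M.symm_apply_apply]
    rfl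
  · simpa using h2
  · simpa [hM] using h3

theorem Tv.inv {I : Ideal R} {θ : Fin n → R} {N : (Fin n → R) ≃ₗ[R] (Fin n → R)}
    (h : Tv I θ N) : Tv I θ N⁻¹ := by
  obtain ⟨c, r, h1, h2, h3, h4⟩ := h
  refine ⟨c, -r, fun ξ => ?_, by simp [h2], by simp [h3], fun ξ => I.neg_mem (h4 _)⟩
  change N.symm ξ = _
  rw [LinearEquiv.symm_apply_eq, h1]
  simp [h2]

/-- the group generated by the transvections which stabilise the hyperplane -/
def NN (I : Ideal R) (θ : Fin n → R) (lam : (Fin n → R) →ₗ[R] R) :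
    Subgroup ((Fin n → R) ≃ₗ[R] (Fin n → R)) :=
  Subgroup.closure {M | Tv I θ M ∧ M ∈ Hyp lam}

theorem NN_conj {I : Ideal R} {θ θ' : Fin n → R} {lam : (Fin n → R) →ₗ[R] R}
    {M N : (Fin n → R) ≃ₗ[R] (Fin n → R)} (hM : M ∈ Hyp lam) (hθ : M θ = θ')
    (h : N ∈ NN I θ' lam) : M⁻¹ * N * M ∈ NN I θ lam := by
  induction h using Subgroup.closure_induction with
  | mem x hx =>
    exact Subgroup.subset_closure ⟨hx.1.conj hθ,
      (Hyp lam).mul_mem ((Hyp lam).mul_mem ((Hyp lam).inv_mem hM) hx.2) hM⟩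
  | one => simp
  | mul x y _ _ hx hy =>
    have : M⁻¹ * (x * y) * M = (M⁻¹ * x * M) * (M⁻¹ * y * M) := by group
    rw [this]
    exact (NN I θ lam).mul_mem hx hy
  | inv x _ hx =>
    have : M⁻¹ * x⁻¹ * M = (M⁻¹ * x * M)⁻¹ := by group
    rw [this]
    exact (NN I θ lam).inv_mem hx

/-- the invariant of tame automorphisms -/
def Pr (I : Ideal R) (lam : (Fin n → R) →ₗ[R] R) : Subgroup (Aut k n) where
  carrier := {g | (∀ P Q, J g P Q ∈ Hyp lam) ∧
    ∀ P Q, (∀ i, P i - Q i ∈ I) → (J g Q P)⁻¹ * J g P Q ∈ NN I (P - Q) lam}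
  one_mem' := ⟨fun P Q => by rw [J_one]; exact (Hyp lam).one_mem, fun P Q _ => by
    rw [J_one, J_one]; simp⟩
  mul_mem' := fun {g h} hg hh => by
    refine ⟨fun P Q => ?_, fun P Q hPQ => ?_⟩
    · rw [J_mul]; exact (Hyp lam).mul_mem (hh.1 _ _) (hg.1 _ _)
    · have h1 := NN_conj (hg.1 Q P) (J_chord g P Q) (hh.2 _ _ (act_congr I hPQ g))
      have h2 := (NN I (P - Q) lam).mul_mem h1 (hg.2 P Q hPQ)
      rw [J_mul, J_mul]
      convert h2 using 1
      group
  inv_mem' := fun {g} hg => by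
    have e : ∀ P Q : Fin n → R, J g⁻¹ P Q = (J g (act g⁻¹ P) (act g⁻¹ Q))⁻¹ := by
      intro P Q
      rw [← J_inv, act_inv', act_inv']
    refine ⟨fun P Q => ?_, fun P Q hPQ => ?_⟩
    · rw [e]; exact (Hyp lam).inv_mem (hg.1 _ _)
    · have h0 := (NN I _ lam).inv_mem (hg.2 _ _ (act_congr I hPQ g⁻¹))
      have h1 := NN_conj (M := J g⁻¹ Q P) (by rw [e]; exact (Hyp lam).inv_mem (hg.1 _ _))
        (J_chord g⁻¹ P Q) h0
      rw [e] at h1
      rw [e, e]
      convert h1 using 1
      group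

theorem DD_span {f : FreeAlgebra k (Fin n)}
    (hf : f ∈ Submodule.span k (Set.range (ι k (X := Fin n)))) (P Q P' Q' ξ : Fin n → R) :
    DD P Q ξ f = DD P' Q' ξ f := by
  induction hf using Submodule.span_induction with
  | mem x hx =>
    obtain ⟨i, rfl⟩ := hx
    simp
  | zero => simp
  | add x y _ _ hx hy => simp [hx, hy]
  | smul c x _ hx => simp [hx]

theorem J_linear {h : Aut k n} (hh : IsLinear h) (P Q P' Q' : Fin n → R) :
    J h P Q = J h P' Q' := by
  ext ξ i
  exact DD_span (hh i) _ _ _ _ _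

theorem ev_star (P : Fin n → R) (f : FreeAlgebra k (Fin n)) : ev P (star f) = ev P f := by
  induction f using FreeAlgebra.induction with
  | grade0 r => simp
  | grade1 i => simp
  | mul a b ha hb => rw [star_mul, map_mul, map_mul, ha, hb, mul_comm]
  | add a b ha hb => rw [star_add, map_add, map_add, ha, hb]

theorem DD_star (P Q ξ : Fin n → R) (f : FreeAlgebra k (Fin n)) :
    DD Q P ξ (star f) = DD P Q ξ f := by
  induction f using FreeAlgebra.induction with
  | grade0 r => simp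
  | grade1 i => simp
  | mul a b ha hb => rw [star_mul, DD_mul, DD_mul, ha, hb, ev_star, ev_star]; ring
  | add a b ha hb => rw [star_add, DD_add, DD_add, ha, hb]

theorem J_symm {h : Aut k n} (hh : IsLinear h ∨ IsPalindromic h) (P Q : Fin n → R) :
    J h P Q = J h Q P := by
  rcases hh with hh | hh
  · exact J_linear hh _ _ _ _
  · ext ξ i
    rw [J_apply, J_apply, ← DD_star, hh i]

theorem DD_single {i : Fin n} {f : FreeAlgebra k (Fin n)}
    (hf : f ∈ Algebra.adjoin k (ι k '' {j | j ≠ i})) (P Q : Fin n → R) :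
    DD P Q (Pi.single i 1) f = 0 := by
  induction hf using Algebra.adjoin_induction with
  | mem x hx =>
    obtain ⟨j, hj, rfl⟩ := hx
    rw [DD_ι, Pi.single_eq_of_ne hj]
  | algebraMap r => simp
  | add x y _ _ hx hy => simp [hx, hy]
  | mul x y _ _ hx hy => simp [hx, hy]

theorem Tv_elementary (I : Ideal R) {e : Aut k n} (he : IsElementary e) {P Q : Fin n → R}
    (hPQ : ∀ i, P i - Q i ∈ I) : Tv I (P - Q) ((J e Q P)⁻¹ * J e P Q) := by
  obtain ⟨i, c, f, hc, hf, h1, h2⟩ := he
  refine ⟨Pi.single i 1, algebraMap k R c⁻¹ • (DL P Q f - DL Q P f), fun ξ => ?_, ?_, ?_,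
    fun ξ => ?_⟩
  · change (J e Q P).symm (J e P Q ξ) = _
    rw [LinearEquiv.symm_apply_eq, map_add, map_smul]
    funext j
    by_cases hj : j = i
    · subst hj
      have hcc : algebraMap k R c⁻¹ * algebraMap k R c = 1 := by
        rw [← map_mul, inv_mul_cancel₀ hc, map_one]
      simp only [Pi.add_apply, Pi.smul_apply, J_apply, h1, DD_add, DD_smul, DD_ι,
        DD_single hf, Pi.single_eq_same, LinearMap.smul_apply, LinearMap.sub_apply, DL_apply,
        smul_eq_mul]
      simp only [Algebra.smul_def]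
      linear_combination (DD Q P ξ f - DD P Q ξ f) * hcc
    · simp [J_apply, h2 j hj, Pi.single_eq_of_ne hj]
  · simp [DD_single hf]
  · simp only [LinearMap.smul_apply, LinearMap.sub_apply, DL_apply]
    rw [DD_chord, DD_chord', sub_self, smul_zero]
  · simp only [LinearMap.smul_apply, LinearMap.sub_apply, DL_apply, smul_eq_mul]
    exact I.mul_mem_left _ (DD_congr I hPQ ξ f)

theorem J_mem_Hyp [IsDomain R] {l : FreeAlgebra k (Fin n)}
    (hl : l ∈ Submodule.span k (Set.range (ι k (X := Fin n)))) {g : Aut k n}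
    (hg : g l ∈ Algebra.adjoin k {l}) (P Q : Fin n → R) :
    J g P Q ∈ Hyp (DL (0 : Fin n → R) 0 l) := by
  have key : ∀ f ∈ Algebra.adjoin k {l}, ∃ μ : R, ∀ ξ, DD P Q ξ f = μ * DD 0 0 ξ l := by
    intro f hf
    induction hf using Algebra.adjoin_induction with
    | mem x hx =>
      rw [Set.mem_singleton_iff.1 hx]
      exact ⟨1, fun ξ => by rw [one_mul]; exact DD_span hl _ _ _ _ _⟩
    | algebraMap r => exact ⟨0, fun ξ => by simp⟩
    | add x y _ _ hx hy =>
      obtain ⟨a, ha⟩ := hx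
      obtain ⟨b, hb⟩ := hy
      exact ⟨a + b, fun ξ => by rw [DD_add, ha, hb]; ring⟩
    | mul x y _ _ hx hy =>
      obtain ⟨a, ha⟩ := hx
      obtain ⟨b, hb⟩ := hy
      exact ⟨ev P x * b + a * ev Q y, fun ξ => by rw [DD_mul, ha, hb]; ring⟩
  obtain ⟨μ, hμ⟩ := key _ hg
  have h1 : ∀ ξ, DD 0 0 (J g P Q ξ) l = μ * DD 0 0 ξ l := by
    intro ξ
    rw [← hμ, DD_comp]
    exact DD_span hl _ _ _ _ _
  intro ξ
  simp only [DL_apply]
  rw [h1]
  refine ⟨fun h => ?_, fun h => by rw [h, mul_zero]⟩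
  rcases mul_eq_zero.1 h with h0 | h0
  · have h2 := h1 ((J g P Q).symm ξ)
    rwa [LinearEquiv.apply_symm_apply, h0, zero_mul] at h2
  · exact h0

theorem tameOver_le [IsDomain R] (I : Ideal R) {l : FreeAlgebra k (Fin n)}
    (hl : l ∈ Submodule.span k (Set.range (ι k (X := Fin n)))) :
    TameOver l ≤ Pr I (DL (0 : Fin n → R) 0 l) := by
  rw [TameOver, Subgroup.closure_le]
  rintro g ⟨hgl, hg⟩
  refine ⟨J_mem_Hyp hl hgl, fun P Q hPQ => ?_⟩
  rcases or_assoc.2 hg with hg | ⟨h, e, hh, he, rfl⟩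
  · rw [J_symm hg Q P, inv_mul_cancel]
    exact (NN I _ _).one_mem
  · refine Subgroup.subset_closure ⟨?_, (Hyp _).mul_mem ((Hyp _).inv_mem (J_mem_Hyp hl hgl _ _))
      (J_mem_Hyp hl hgl _ _)⟩
    have h0 := (Tv_elementary I he (act_congr I hPQ h⁻¹)).conj (J_chord h⁻¹ P Q)
    have e1 : J h⁻¹ P Q = J h⁻¹ Q P := by
      have a1 := J_inv h (act h⁻¹ P) (act h⁻¹ Q)
      have a2 := J_inv h (act h⁻¹ Q) (act h⁻¹ P)
      rw [act_inv', act_inv'] at a1 a2
      rw [a1, a2, J_symm hh (act h⁻¹ P) (act h⁻¹ Q)]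
    rw [J_mul, J_mul, J_mul, J_mul, e1, J_symm hh (act (h⁻¹ * e) P) (act (h⁻¹ * e) Q)]
    convert h0 using 1
    group

theorem tame_le_tameOver_zero : Tame k n ≤ TameOver (0 : FreeAlgebra k (Fin n)) := by
  apply Subgroup.closure_mono
  intro g hg
  refine ⟨by rw [map_zero]; exact zero_mem _, hg.imp id fun h => Or.inr
    ⟨1, g, Or.inl fun i => Submodule.subset_span ⟨i, rfl⟩, h, by simp⟩⟩

end Pool.Agent.Lib.MP_1cf7f7_al
end

-- part Pool.Agent.Lib.MP_1cf7f7_al.Nagao
section

/-! A function on two by two matrices over `k[t]`, defined along the Euclidean algorithm.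
It is invariant under constant matrices on the left and changes in a controlled way under
upper unitriangular matrices (a cocycle on the Nagao tree). -/

namespace Pool.Agent.Lib.MP_1cf7f7_al

open Polynomial

variable {k : Type*} [Field k]

theorem div_mod_unique {a c q r : k[X]} (hc : c ≠ 0) (h : a = q * c + r)
    (hr : r.degree < c.degree) : a / c = q ∧ a % c = r := by
  have h1 := EuclideanDomain.div_add_mod a c
  have h2 : (a % c).degree < c.degree := degree_mod_lt a hc
  have h3 : c * (a / c - q) = r - a % c := by linear_combination h1 + h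
  have h4 : a / c - q = 0 := by
    by_contra hne
    have h5 : (r - a % c).degree < c.degree :=
      lt_of_le_of_lt (degree_sub_le _ _) (max_lt hr h2)
    rw [← h3, degree_mul] at h5
    have h6 : (0 : WithBot ℕ) ≤ (a / c - q).degree := zero_le_degree_iff.2 hne
    have h7 : c.degree ≤ c.degree + (a / c - q).degree := le_add_of_nonneg_right h6
    exact absurd h5 (not_lt.2 h7)
  have h5 : a / c = q := sub_eq_zero.1 h4
  refine ⟨h5, ?_⟩
  rw [h4, mul_zero] at h3
  exact (sub_eq_zero.1 h3.symm).symm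

open Classical in
/-- weight of a second row -/
noncomputable def psi (c d : k[X]) : k :=
  if c.coeff 0 = 0 then d.coeff 0 * c.coeff 1 else 0

theorem psi_zero (d : k[X]) : psi 0 d = 0 := by simp [psi]

theorem psi_congr {c d c' d' : k[X]} (hc : X ^ 2 ∣ c - c') (hd : X ^ 2 ∣ d - d') :
    psi c d = psi c' d' := by
  rw [X_pow_dvd_iff] at hc hd
  have h0 := hc 0 (by norm_num)
  have h1 := hc 1 (by norm_num)
  have h2 := hd 0 (by norm_num)
  rw [coeff_sub, sub_eq_zero] at h0 h1 h2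
  unfold psi
  rw [h0, h1, h2]

theorem psi_scale {β : k} (hβ : β ≠ 0) (c d : k[X]) :
    psi (C β * c) (C β * d) = β ^ 2 * psi c d := by
  unfold psi
  by_cases h : c.coeff 0 = 0
  · rw [if_pos h, if_pos (by rw [coeff_C_mul, h, mul_zero]), coeff_C_mul, coeff_C_mul]
    ring
  · rw [if_neg h, if_neg (by rw [coeff_C_mul]; exact mul_ne_zero hβ h), mul_zero]

open Classical in
/-- size used for the Euclidean recursion -/
noncomputable def sz (c : k[X]) : ℕ := if c = 0 then 0 else c.natDegree + 1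

theorem sz_lt {r c : k[X]} (hc : c ≠ 0) (h : r.degree < c.degree) : sz r < sz c := by
  unfold sz
  rw [if_neg hc]
  split_ifs with hr
  · omega
  · have := natDegree_lt_natDegree hr h
    omega

theorem sz_neg (r : k[X]) : sz (-r) = sz r := by
  unfold sz
  by_cases h : r = 0
  · rw [if_pos h, if_pos (neg_eq_zero.2 h)]
  · rw [if_neg h, if_neg (neg_ne_zero.2 h), natDegree_neg]

open Classical in
/-- the cocycle -/
noncomputable def FF (a b c d : k[X]) : k :=
  if _h : c = 0 then 0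
  else (a / c).coeff 4 * psi c d + FF c d (-(a % c)) (-(b - a / c * d))
termination_by sz c
decreasing_by
  rw [sz_neg]
  exact sz_lt _h (degree_mod_lt a _h)

theorem FF_zero (a b d : k[X]) : FF a b 0 d = 0 := by
  rw [FF]; simp

theorem FF_step {a b c d q r : k[X]} (hc : c ≠ 0) (h : a = q * c + r)
    (hr : r.degree < c.degree) :
    FF a b c d = q.coeff 4 * psi c d + FF c d (-r) (-(b - q * d)) := by
  obtain ⟨h1, h2⟩ := div_mod_unique hc h hr
  rw [FF, dif_neg hc, h1, h2]

theorem FF_e12 (f a b c d : k[X]) :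
    FF (a + f * c) (b + f * d) c d = FF a b c d + f.coeff 4 * psi c d := by
  by_cases hc : c = 0
  · subst hc
    simp [FF_zero, psi_zero]
  have h1 := EuclideanDomain.div_add_mod a c
  have h2 : (a % c).degree < c.degree := degree_mod_lt a hc
  rw [FF_step (q := a / c + f) (r := a % c) hc (by linear_combination -h1) h2,
    FF_step (a := a) (q := a / c) (r := a % c) hc (by linear_combination -h1) h2]
  have : b + f * d - (a / c + f) * d = b - a / c * d := by ring
  rw [this, coeff_add]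
  ring

theorem FF_scale (n : ℕ) : ∀ (α β : k) (a b c d : k[X]), α ≠ 0 → β ≠ 0 → sz c ≤ n →
    FF (C α * a) (C α * b) (C β * c) (C β * d) = α * β * FF a b c d := by
  induction n with
  | zero =>
    intro α β a b c d _ _ hn
    have hc : c = 0 := by
      by_contra hc
      simp [sz, hc] at hn
    subst hc
    simp [FF_zero]
  | succ n ih =>
    intro α β a b c d hα hβ hn
    by_cases hc : c = 0
    · subst hc
      simp [FF_zero]
    have h1 := EuclideanDomain.div_add_mod a c
    have h2 : (a % c).degree < c.degree := degree_mod_lt a hc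
    have hβ' : (C β : k[X]) ≠ 0 := C_ne_zero.2 hβ
    have hCβ : (C β⁻¹ : k[X]) * C β = 1 := by rw [← C_mul, inv_mul_cancel₀ hβ, C_1]
    have hd : (C α * (a % c)).degree < (C β * c).degree := by
      rw [degree_C_mul hα, degree_C_mul hβ]; exact h2
    rw [FF_step (q := C (α * β⁻¹) * (a / c)) (r := C α * (a % c)) (mul_ne_zero hβ' hc)
      (by rw [C_mul]; linear_combination (-C α) * h1 - (C α * (a / c) * c) * hCβ) hd,
      FF_step (a := a) (q := a / c) (r := a % c) hc (by linear_combination -h1) h2]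
    have e1 : -(C α * (a % c)) = C α * (-(a % c)) := by ring
    have e2 : -(C α * b - C (α * β⁻¹) * (a / c) * (C β * d)) = C α * (-(b - a / c * d)) := by
      rw [C_mul]; linear_combination (C α * (a / c) * d) * hCβ
    have hs : sz (-(a % c)) ≤ n := by
      rw [sz_neg]
      have := sz_lt hc h2
      omega
    rw [e1, e2, ih β α _ _ _ _ hβ hα hs, psi_scale hβ, coeff_C_mul]
    field_simp

theorem FF_scale' {α β : k} (hα : α ≠ 0) (hβ : β ≠ 0) (a b c d : k[X]) :
    FF (C α * a) (C α * b) (C β * c) (C β * d) = α * β * FF a b c d :=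
  FF_scale _ α β a b c d hα hβ le_rfl

theorem FF_w_lt {a c : k[X]} (b d : k[X]) (h : a.degree < c.degree) :
    FF c d (-a) (-b) = FF a b c d := by
  have hc : c ≠ 0 := by
    rintro rfl
    simp at h
  rw [FF_step (a := a) (q := 0) (r := a) hc (by simp) h]
  simp

theorem FF_w (a b c d : k[X]) : FF c d (-a) (-b) = FF a b c d := by
  rcases lt_trichotomy a.degree c.degree with h | h | h
  · exact FF_w_lt b d h
  · by_cases hc : c = 0
    · subst hc
      have ha : a = 0 := by simpa using h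
      subst ha
      simp [FF_zero]
    have ha : a ≠ 0 := by
      rintro rfl
      exact hc (degree_eq_bot.1 (by simpa using h.symm))
    set l : k := a.leadingCoeff / c.leadingCoeff with hl
    have hlc : c.leadingCoeff ≠ 0 := leadingCoeff_ne_zero.2 hc
    have hl0 : l ≠ 0 := div_ne_zero (leadingCoeff_ne_zero.2 ha) hlc
    have hr : (a - C l * c).degree < c.degree := by
      rw [← h]
      apply degree_sub_lt_left
      · rw [degree_C_mul hl0, h]
      · exact ha
      · rw [leadingCoeff_mul, leadingCoeff_C, hl]; field_simp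
    have hCl : (C l⁻¹ : k[X]) * C l = 1 := by rw [← C_mul, inv_mul_cancel₀ hl0, C_1]
    have hr' : (C (-l⁻¹) * (a - C l * c)).degree < (-a).degree := by
      rw [degree_C_mul (neg_ne_zero.2 (inv_ne_zero hl0)), degree_neg, h]; exact hr
    rw [FF_step (a := a) (q := C l) (r := a - C l * c) hc (by ring) hr,
      FF_step (a := c) (q := C (-l⁻¹)) (r := C (-l⁻¹) * (a - C l * c)) (neg_ne_zero.2 ha)
        (by rw [C_neg]; linear_combination (-c) * hCl) hr']
    have hc4 : ∀ x : k, (C x : k[X]).coeff 4 = 0 := fun x => by simp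
    rw [hc4, hc4, zero_mul, zero_mul, zero_add, zero_add]
    have key := FF_e12 (C (-l)) (C (-l) * c) (C (-l) * d) (C (-l⁻¹) * (-(a - C l * c)))
      (C (-l⁻¹) * (-(b - C l * d)))
    rw [hc4, zero_mul, add_zero, FF_scale' (neg_ne_zero.2 hl0) (neg_ne_zero.2 (inv_ne_zero hl0))]
      at key
    have e0 : -l * -l⁻¹ = 1 := by field_simp
    rw [e0, one_mul] at key
    rw [← key]
    congr 1
    · simp only [C_neg]; linear_combination (a - C l * c) * hCl
    · simp only [C_neg]; linear_combination (b - C l * d) * hCl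
    · simp only [C_neg]; ring
    · simp only [C_neg]; linear_combination d * hCl
  · have h1 := FF_w_lt (a := c) (c := -a) d (-b) (by rwa [degree_neg])
    rw [← h1]
    have h2 := FF_scale' (α := (-1 : k)) (β := -1) (by simp) (by simp) a b c d
    simp only [C_neg, C_1, neg_mul, one_mul, mul_neg, neg_neg] at h2
    exact h2

/-- left multiplication by the matrix `(p q; r s)` changes `FF` by an amount which only depends
on the class modulo `t ^ 2` -/
def Good (p q r s : k[X]) : Prop :=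
  ∀ a b c d a' b' c' d' : k[X], X ^ 2 ∣ a - a' → X ^ 2 ∣ b - b' → X ^ 2 ∣ c - c' →
    X ^ 2 ∣ d - d' →
    FF (p * a + q * c) (p * b + q * d) (r * a + s * c) (r * b + s * d) - FF a b c d =
      FF (p * a' + q * c') (p * b' + q * d') (r * a' + s * c') (r * b' + s * d') - FF a' b' c' d'

theorem good_of_det (n : ℕ) : ∀ p q r s : k[X], p * s - q * r = 1 → sz r ≤ n → Good p q r s := by
  have base : ∀ p q s : k[X], p * s = 1 → Good p q 0 s := by
    intro p q s h a b c d a' b' c' d' _ _ hc hd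
    obtain ⟨α, hα, rfl⟩ := isUnit_iff.1 (IsUnit.of_mul_eq_one s h)
    have hα0 : α ≠ 0 := hα.ne_zero
    have hCα : (C α⁻¹ : k[X]) * C α = 1 := by rw [← C_mul, inv_mul_cancel₀ hα0, C_1]
    have hs : s = C α⁻¹ := by linear_combination (C α⁻¹) * h - s * hCα
    subst hs
    have key : ∀ a b c d : k[X], FF (C α * a + q * c) (C α * b + q * d) (0 * a + C α⁻¹ * c)
        (0 * b + C α⁻¹ * d) - FF a b c d = (q * C α).coeff 4 * (α⁻¹ ^ 2 * psi c d) := by
      intro a b c d
      have e := FF_e12 (q * C α) (C α * a) (C α * b) (C α⁻¹ * c) (C α⁻¹ * d)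
      rw [FF_scale' hα0 (inv_ne_zero hα0), mul_inv_cancel₀ hα0, one_mul,
        psi_scale (inv_ne_zero hα0)] at e
      have e1 : C α * a + q * c = C α * a + q * C α * (C α⁻¹ * c) := by
        linear_combination (-(q * c)) * hCα
      have e2 : C α * b + q * d = C α * b + q * C α * (C α⁻¹ * d) := by
        linear_combination (-(q * d)) * hCα
      rw [zero_mul, zero_add, zero_mul, zero_add, e1, e2, e]
      ring
    rw [key, key, psi_congr hc hd]
  induction n with
  | zero =>
    intro p q r s h hn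
    have hr : r = 0 := by
      by_contra hr
      simp [sz, hr] at hn
    subst hr
    exact base p q s (by simpa using h)
  | succ n ih =>
    intro p q r s h hn
    by_cases hr : r = 0
    · subst hr
      exact base p q s (by simpa using h)
    have h1 := EuclideanDomain.div_add_mod p r
    have h2 : (p % r).degree < r.degree := degree_mod_lt p hr
    have hs : sz (-(p % r)) ≤ n := by
      rw [sz_neg]
      have := sz_lt hr h2
      omega
    have ih' := ih r s (-(p % r)) (-(q - p / r * s)) (by linear_combination h + s * h1) hs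
    intro a b c d a' b' c' d' ha hb hc hd
    have key : ∀ a b c d : k[X], FF (p * a + q * c) (p * b + q * d) (r * a + s * c)
        (r * b + s * d) = FF (r * a + s * c) (r * b + s * d)
          (-(p % r) * a + -(q - p / r * s) * c) (-(p % r) * b + -(q - p / r * s) * d) +
          (p / r).coeff 4 * psi (r * a + s * c) (r * b + s * d) := by
      intro a b c d
      have e := FF_e12 (p / r) ((p % r) * a + (q - p / r * s) * c)
        ((p % r) * b + (q - p / r * s) * d) (r * a + s * c) (r * b + s * d)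
      rw [← FF_w ((p % r) * a + (q - p / r * s) * c)] at e
      convert e using 2
      · linear_combination (-a) * h1
      · linear_combination (-b) * h1
      · congr 1 <;> ring
    have hp : psi (r * a + s * c) (r * b + s * d) = psi (r * a' + s * c') (r * b' + s * d') := by
      apply psi_congr
      · have : r * a + s * c - (r * a' + s * c') = r * (a - a') + s * (c - c') := by ring
        rw [this]; exact dvd_add (ha.mul_left _) (hc.mul_left _)
      · have : r * b + s * d - (r * b' + s * d') = r * (b - b') + s * (d - d') := by ring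
        rw [this]; exact dvd_add (hb.mul_left _) (hd.mul_left _)
    have := ih' a b c d a' b' c' d' ha hb hc hd
    rw [key, key, hp]
    linear_combination this

/-- the value on a unipotent matrix with a unimodular fixed vector -/
theorem FF_unip {c₁ c₂ u v γ a b c d : k[X]} (huv : u * c₁ + v * c₂ = 1) (hγ : X ^ 2 ∣ γ)
    (ha : X ^ 2 ∣ a - 1) (hb : X ^ 2 ∣ b) (hc : X ^ 2 ∣ c) (hd : X ^ 2 ∣ d - 1) :
    FF (a + γ * c₁ * (c₁ * c - c₂ * a)) (b + γ * c₁ * (c₁ * d - c₂ * b))
      (c + γ * c₂ * (c₁ * c - c₂ * a)) (d + γ * c₂ * (c₁ * d - c₂ * b)) =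
      FF a b c d + γ.coeff 4 * psi (-c₂) c₁ := by
  have hg := good_of_det _ c₁ (-v) c₂ u (by linear_combination huv) le_rfl
    (u * a + v * c + γ * (c₁ * c - c₂ * a)) (u * b + v * d + γ * (c₁ * d - c₂ * b))
    (c₁ * c - c₂ * a) (c₁ * d - c₂ * b) (u * a + v * c) (u * b + v * d)
    (c₁ * c - c₂ * a) (c₁ * d - c₂ * b) (by simpa using hγ.mul_right _)
    (by simpa using hγ.mul_right _) (by simp) (by simp)
  rw [FF_e12] at hg
  have hp : psi (c₁ * c - c₂ * a) (c₁ * d - c₂ * b) = psi (-c₂) c₁ := by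
    apply psi_congr
    · have : c₁ * c - c₂ * a - -c₂ = c₁ * c - c₂ * (a - 1) := by ring
      rw [this]; exact dvd_sub (hc.mul_left _) (ha.mul_left _)
    · have : c₁ * d - c₂ * b - c₁ = c₁ * (d - 1) - c₂ * b := by ring
      rw [this]; exact dvd_sub (hd.mul_left _) (hb.mul_left _)
  rw [hp] at hg
  have e1 : c₁ * (u * a + v * c) + -v * (c₁ * c - c₂ * a) = a := by linear_combination a * huv
  have e2 : c₁ * (u * b + v * d) + -v * (c₁ * d - c₂ * b) = b := by linear_combination b * huv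
  have e3 : c₂ * (u * a + v * c) + u * (c₁ * c - c₂ * a) = c := by linear_combination c * huv
  have e4 : c₂ * (u * b + v * d) + u * (c₁ * d - c₂ * b) = d := by linear_combination d * huv
  have f1 : c₁ * (u * a + v * c + γ * (c₁ * c - c₂ * a)) + -v * (c₁ * c - c₂ * a) =
      a + γ * c₁ * (c₁ * c - c₂ * a) := by linear_combination a * huv
  have f2 : c₁ * (u * b + v * d + γ * (c₁ * d - c₂ * b)) + -v * (c₁ * d - c₂ * b) =
      b + γ * c₁ * (c₁ * d - c₂ * b) := by linear_combination b * huv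
  have f3 : c₂ * (u * a + v * c + γ * (c₁ * c - c₂ * a)) + u * (c₁ * c - c₂ * a) =
      c + γ * c₂ * (c₁ * c - c₂ * a) := by linear_combination c * huv
  have f4 : c₂ * (u * b + v * d + γ * (c₁ * d - c₂ * b)) + u * (c₁ * d - c₂ * b) =
      d + γ * c₂ * (c₁ * d - c₂ * b) := by linear_combination d * huv
  rw [e1, e2, e3, e4, f1, f2, f3, f4] at hg
  linear_combination hg

theorem coeff_one_mul (f g : k[X]) :
    (f * g).coeff 1 = f.coeff 0 * g.coeff 1 + f.coeff 1 * g.coeff 0 := by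
  rw [coeff_mul, Finset.Nat.antidiagonal_succ]
  simp

/-- transvections congruent to one modulo `e`, with data in `k[t ^ 2, t ^ 3]`, are invisible -/
theorem FF_transv {c₁ c₂ ν₁ ν₂ e a b c d : k[X]} (h1 : c₁.coeff 1 = 0) (h2 : c₂.coeff 1 = 0)
    (h3 : ν₁.coeff 1 = 0) (he : X ^ 2 ∣ e) (h0 : e * (ν₁ * c₁ + ν₂ * c₂) = 0)
    (ha : X ^ 2 ∣ a - 1) (hb : X ^ 2 ∣ b) (hc : X ^ 2 ∣ c) (hd : X ^ 2 ∣ d - 1) :
    FF (a + c₁ * (e * (ν₁ * a + ν₂ * c))) (b + c₁ * (e * (ν₁ * b + ν₂ * d)))
      (c + c₂ * (e * (ν₁ * a + ν₂ * c))) (d + c₂ * (e * (ν₁ * b + ν₂ * d))) = FF a b c d := by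
  classical
  by_cases he0 : e = 0
  · subst he0; simp
  by_cases hc0 : c₁ = 0 ∧ c₂ = 0
  · obtain ⟨rfl, rfl⟩ := hc0; simp
  have h0' : ν₁ * c₁ + ν₂ * c₂ = 0 := (mul_eq_zero.1 h0).resolve_left he0
  set g := EuclideanDomain.gcd c₁ c₂ with hg
  have hg0 : g ≠ 0 := fun h => hc0 (EuclideanDomain.gcd_eq_zero_iff.1 h)
  obtain ⟨x, hx⟩ : g ∣ c₁ := EuclideanDomain.gcd_dvd_left _ _
  obtain ⟨y, hy⟩ : g ∣ c₂ := EuclideanDomain.gcd_dvd_right _ _
  have hb' := EuclideanDomain.gcd_eq_gcd_ab c₁ c₂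
  set u := EuclideanDomain.gcdA c₁ c₂
  set v := EuclideanDomain.gcdB c₁ c₂
  rw [← hg] at hb'
  have huv : u * x + v * y = 1 := by
    apply mul_left_cancel₀ hg0
    rw [mul_one]
    conv_rhs => rw [hb']
    rw [hx, hy]
    nth_rewrite 1 [hx, hy] at hb'
    ring
  have hν : ν₁ * x + ν₂ * y = 0 := by
    apply mul_left_cancel₀ hg0
    rw [mul_zero, ← h0']
    conv_rhs => rw [hx, hy]
    ring
  set η := u * ν₂ - v * ν₁ with hη
  have hν1 : ν₁ = -(η * y) := by linear_combination (-ν₁) * huv + u * hν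
  have hν2 : ν₂ = η * x := by linear_combination (-ν₂) * huv + v * hν
  have key := FF_unip (γ := g * e * η) huv ((he.mul_left _).mul_right _) ha hb hc hd
  have hz : (g * e * η).coeff 4 * psi (-y) x = 0 := by
    by_cases hp : psi (-y) x = 0
    · rw [hp, mul_zero]
    unfold psi at hp
    simp only [coeff_neg, neg_eq_zero] at hp
    split_ifs at hp with hy0
    · have hx0 : x.coeff 0 ≠ 0 := fun h => hp (by rw [h, zero_mul])
      have hy1 : y.coeff 1 ≠ 0 := fun h => hp (by rw [h, neg_zero, mul_zero])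
      rw [hy, coeff_one_mul, hy0, mul_zero, add_zero] at h2
      have hg00 : g.coeff 0 = 0 := (mul_eq_zero.1 h2).resolve_right hy1
      rw [hx, coeff_one_mul, hg00, zero_mul, zero_add] at h1
      have hg1 : g.coeff 1 = 0 := (mul_eq_zero.1 h1).resolve_right hx0
      rw [hν1, coeff_neg, coeff_one_mul, hy0, mul_zero, add_zero, neg_eq_zero] at h3
      have hη0 : η.coeff 0 = 0 := (mul_eq_zero.1 h3).resolve_right hy1
      have d1 : X ^ 2 ∣ g := by
        rw [X_pow_dvd_iff]
        intro j hj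
        interval_cases j
        · exact hg00
        · exact hg1
      have d2 : X ∣ η := X_dvd_iff.2 hη0
      have d3 : X ^ 5 ∣ g * e * η := by
        have : (X : k[X]) ^ 5 = X ^ 2 * X ^ 2 * X := by ring
        rw [this]
        exact mul_dvd_mul (mul_dvd_mul d1 he) d2
      rw [X_pow_dvd_iff.1 d3 4 (by norm_num), zero_mul]
    · exact absurd rfl hp
  rw [hz, add_zero] at key
  rw [← key]
  congr 1
  · rw [hx, hν1, hν2]; ring
  · rw [hx, hν1, hν2]; ring
  · rw [hy, hν1, hν2]; ring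
  · rw [hy, hν1, hν2]; ring

end Pool.Agent.Lib.MP_1cf7f7_al
end

-- part Pool.Agent.Lib.MP_1cf7f7_al.Final
section

/-! Specialisation to the cuspidal ring `k[t ^ 2, t ^ 3]`. -/

namespace Pool.Agent.Lib.MP_1cf7f7_al

open Polynomial

variable {k : Type} [Field k] {n : ℕ}

/-- the ring `k[t ^ 2, t ^ 3]` -/
def Cusp (k : Type) [Field k] : Subalgebra k k[X] where
  carrier := {f | f.coeff 1 = 0}
  mul_mem' := fun {a b} ha hb => by
    simp only [Set.mem_ofPred_eq] at ha hb ⊢
    rw [coeff_one_mul, ha, hb]; ring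
  add_mem' := fun {a b} ha hb => by
    simp only [Set.mem_ofPred_eq] at ha hb ⊢
    rw [coeff_add, ha, hb, add_zero]
  algebraMap_mem' := fun r => by simp

theorem Cusp.coeff (f : Cusp k) : (f : k[X]).coeff 1 = 0 := f.2

/-- the element `t ^ 2` -/
noncomputable def t2 (k : Type) [Field k] : Cusp k := ⟨X ^ 2, by simp [Cusp, coeff_X_pow]⟩

/-- the element `t ^ 3` -/
noncomputable def t3 (k : Type) [Field k] : Cusp k := ⟨X ^ 3, by simp [Cusp, coeff_X_pow]⟩

/-- the two by two block is invisible for the cocycle -/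
def Blk (lam : (Fin n → Cusp k) →ₗ[Cusp k] Cusp k) (i j : Fin n)
    (M : (Fin n → Cusp k) ≃ₗ[Cusp k] (Fin n → Cusp k)) : Prop :=
  M ∈ Hyp lam ∧ ∃ a b c e : k[X], (∀ ξ, lam ξ = 0 →
    (M ξ i : k[X]) = a * ξ i + b * ξ j ∧ (M ξ j : k[X]) = c * ξ i + e * ξ j) ∧
    X ^ 2 ∣ a - 1 ∧ X ^ 2 ∣ b ∧ X ^ 2 ∣ c ∧ X ^ 2 ∣ e - 1 ∧ a * e - b * c = 1 ∧
    FF a b c e = 0

theorem blk_of_mem {lam : (Fin n → Cusp k) →ₗ[Cusp k] Cusp k} {i j : Fin n} {d : Cusp k}
    {v : Fin n → Cusp k} (hd : X ^ 2 ∣ (d : k[X])) (hd0 : d ≠ 0)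
    (hs : ∀ ξ, lam ξ = 0 → ∃ s : Cusp k,
      ξ = ξ i • Pi.single i 1 + ξ j • Pi.single j 1 + s • v)
    {M : (Fin n → Cusp k) ≃ₗ[Cusp k] (Fin n → Cusp k)}
    (hM : M ∈ NN (Ideal.span {d}) (d • v) lam) : Blk lam i j M := by
  have step : ∀ x y : (Fin n → Cusp k) ≃ₗ[Cusp k] (Fin n → Cusp k),
      Tv (Ideal.span {d}) (d • v) x → x ∈ Hyp lam → Blk lam i j y → Blk lam i j (x * y) := by
    rintro x y ⟨c₀, r, h1, h2, h3, h4⟩ hx ⟨hy, a, b, c, e, hm, ha, hb, hc, he, hD, hF⟩
    refine ⟨(Hyp lam).mul_mem hx hy, ?_⟩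
    by_cases hl : lam c₀ = 0
    · have hv : r v = 0 := by
        rw [map_smul, smul_eq_mul] at h3
        exact (mul_eq_zero.1 h3).resolve_left hd0
      obtain ⟨ν₁, hν₁⟩ := Ideal.mem_span_singleton'.1 (h4 (Pi.single i 1))
      obtain ⟨ν₂, hν₂⟩ := Ideal.mem_span_singleton'.1 (h4 (Pi.single j 1))
      have hr : ∀ η, lam η = 0 → r η = d * (ν₁ * η i + ν₂ * η j) := by
        intro η hη
        obtain ⟨s, hs'⟩ := hs η hη
        conv_lhs => rw [hs']
        simp only [map_add, map_smul, hv, ← hν₁, ← hν₂, smul_eq_mul]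
        ring
      have h0 : (d : k[X]) * (ν₁ * c₀ i + ν₂ * c₀ j) = 0 := by
        have := congrArg Subtype.val ((hr c₀ hl).symm.trans h2)
        simpa using this
      refine ⟨a + c₀ i * (d * (ν₁ * a + ν₂ * c)), b + c₀ i * (d * (ν₁ * b + ν₂ * e)),
        c + c₀ j * (d * (ν₁ * a + ν₂ * c)), e + c₀ j * (d * (ν₁ * b + ν₂ * e)),
        fun ξ hξ => ?_, ?_, ?_, ?_, ?_, ?_, ?_⟩
      · have hη : lam (y ξ) = 0 := (hy ξ).2 hξ
        obtain ⟨m1, m2⟩ := hm ξ hξ
        have e1 : (x * y) ξ = y ξ + (d * (ν₁ * y ξ i + ν₂ * y ξ j)) • c₀ := by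
          rw [← hr _ hη]; exact h1 _
        rw [e1]
        simp only [Pi.add_apply, Pi.smul_apply, smul_eq_mul, Subalgebra.coe_add,
          Subalgebra.coe_mul, m1, m2]
        constructor <;> ring
      · have : a + c₀ i * (d * (ν₁ * a + ν₂ * c)) - 1 =
          (a - 1) + c₀ i * (d * (ν₁ * a + ν₂ * c)) := by ring
        rw [this]
        exact dvd_add ha ((hd.mul_right _).mul_left _)
      · exact dvd_add hb ((hd.mul_right _).mul_left _)
      · exact dvd_add hc ((hd.mul_right _).mul_left _)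
      · have : e + c₀ j * (d * (ν₁ * b + ν₂ * e)) - 1 =
          (e - 1) + c₀ j * (d * (ν₁ * b + ν₂ * e)) := by ring
        rw [this]
        exact dvd_add he ((hd.mul_right _).mul_left _)
      · linear_combination hD + (a * e - b * c) * h0
      · rw [FF_transv (Cusp.coeff _) (Cusp.coeff _) (Cusp.coeff _) hd h0 ha hb hc he, hF]
    · refine ⟨a, b, c, e, fun ξ hξ => ?_, ha, hb, hc, he, hD, hF⟩
      have hη : lam (y ξ) = 0 := (hy ξ).2 hξ
      have h5 : lam (x (y ξ)) = 0 := (hx _).2 hη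
      rw [h1, map_add, map_smul, hη, zero_add, smul_eq_mul] at h5
      have h6 : r (y ξ) = 0 := (mul_eq_zero.1 h5).resolve_right hl
      have e1 : (x * y) ξ = y ξ := by
        change x (y ξ) = _
        rw [h1, h6, zero_smul, add_zero]
      rw [e1]
      exact hm ξ hξ
  induction hM using Subgroup.closure_induction_left with
  | one =>
    exact ⟨(Hyp lam).one_mem, 1, 0, 0, 1, fun ξ _ => by simp, by simp, by simp, by simp, by simp,
      by simp, FF_zero _ _ _⟩
  | mul_left x hx y _ hy => exact step x y hx.1 hx.2 hy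
  | inv_mul_cancel x hx y _ hy => exact step _ y hx.1.inv ((Hyp lam).inv_mem hx.2) hy

/-- The first row of the Cohn matrix at `(t ^ 2, t ^ 3)` is not the first row of an invisible
Cohn matrix times an invisible block. -/
theorem cohn_ne {lam : (Fin n → Cusp k) →ₗ[Cusp k] Cusp k} {i j : Fin n} (hij : i ≠ j)
    (hi : lam (Pi.single i 1) = 0) (hj : lam (Pi.single j 1) = 0)
    {A B : (Fin n → Cusp k) ≃ₗ[Cusp k] (Fin n → Cusp k)} (hM : Blk lam i j (B⁻¹ * A))
    {u v : Cusp k} {h c₁ c₂ x y : k[X]} (hu : (u : k[X]) = h * c₁) (hv : (v : k[X]) = h * c₂)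
    (hh : X ∣ h) (hxy : x * c₁ + y * c₂ = 1) (hp : psi (-c₂) c₁ = 0)
    (hA : ∀ ξ, A ξ i = ξ i + t2 k * (ξ i * t3 k - t2 k * ξ j))
    (hB : ∀ ξ, B ξ i = ξ i + u * (ξ i * v - u * ξ j)) : False := by
  obtain ⟨-, a, b, c, e, hm, ha, hb, hc, he, hD, hF⟩ := hM
  have hAB : ∀ ξ, A ξ = B ((B⁻¹ * A) ξ) := fun ξ => (B.apply_symm_apply _).symm
  have f1 := hm _ hi
  have f2 := hm _ hj
  have g1 := hA (Pi.single i 1)
  have g2 := hA (Pi.single j 1)
  rw [hAB, hB] at g1 g2
  have g11 := congrArg Subtype.val g1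
  have g21 := congrArg Subtype.val g2
  simp only [Subalgebra.coe_add, Subalgebra.coe_mul, Subalgebra.coe_sub, f1.1, f1.2, f2.1, f2.2,
    Pi.single_eq_same, Pi.single_eq_of_ne hij, Pi.single_eq_of_ne hij.symm, Subalgebra.coe_one,
    Subalgebra.coe_zero, hu, hv, t2, t3] at g11 g21
  have hhh : X ^ 2 ∣ -(h * h) := by rw [pow_two]; exact (mul_dvd_mul hh hh).neg_right
  have k1 := FF_unip (γ := -(h * h)) hxy hhh ha hb hc he
  rw [hp, hF, mul_zero, add_zero] at k1
  set γ₁ := c + -(h * h) * c₂ * (c₁ * c - c₂ * a) with hγ₁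
  set γ₂ := e + -(h * h) * c₂ * (c₁ * e - c₂ * b) with hγ₂
  have e1 : a + -(h * h) * c₁ * (c₁ * c - c₂ * a) = 1 + X ^ 5 := by linear_combination g11
  have e2 : b + -(h * h) * c₁ * (c₁ * e - c₂ * b) = -X ^ 4 := by linear_combination g21
  have hdet : (1 + X ^ 5) * γ₂ - (-X ^ 4) * γ₁ = 1 := by
    rw [← e1, ← e2, hγ₁, hγ₂]
    linear_combination hD
  rw [e1, e2] at k1
  have hγ : X ^ 2 ∣ γ₁ := dvd_add hc ((hhh.mul_right _).mul_right _)
  have p5 : (X : k[X]) ^ 2 ∣ X ^ 5 := pow_dvd_pow _ (by norm_num)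
  have p4 : (X : k[X]) ^ 2 ∣ X ^ 4 := pow_dvd_pow _ (by norm_num)
  have p6 : (X : k[X]) ^ 2 ∣ X ^ 6 := pow_dvd_pow _ (by norm_num)
  have k2 := FF_unip (k := k) (c₁ := 1) (c₂ := X) (u := 1) (v := 0) (γ := -X ^ 4) (a := 1)
    (b := 0) (c := 0) (d := 1) (by simp) p4.neg_right (by simp) (by simp) (by simp) (by simp)
  rw [FF_zero] at k2
  have k3 : (-X ^ 4 : k[X]).coeff 4 * psi (-X : k[X]) 1 = 1 := by
    simp [psi, coeff_X_pow]
  rw [k3] at k2
  have k4 := FF_unip (k := k) (c₁ := 0) (c₂ := 1) (u := 0) (v := 1)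
    (γ := -(γ₁ * (1 - X ^ 5) - γ₂ * X ^ 6)) (a := 1 + X ^ 5) (b := -X ^ 4) (c := X ^ 6)
    (d := 1 - X ^ 5) (by simp) (dvd_sub (hγ.mul_right _) (p6.mul_left _)).neg_right
    (by simpa using p5) p4.neg_right p6 (by simpa using p5)
  have k5 : psi (-1 : k[X]) 0 = 0 := by simp [psi]
  rw [k5, mul_zero ((_ : k[X]).coeff 4), add_zero] at k4
  have : (0 : k) = 0 + 1 := by
    refine k1.symm.trans (Eq.trans ?_ (k4.trans (Eq.trans ?_ k2)))
    · congr 1
      · ring
      · ring
      · linear_combination (X ^ 6) * hdet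
      · linear_combination (1 - X ^ 5) * hdet
    · congr 1 <;> ring
  simp at this

end Pool.Agent.Lib.MP_1cf7f7_al
end
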