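import Mathlib

/-! Characteristic two: the plane `k[a][b]`, its two derivations and the separation lemma. -/

set_option autoImplicit false

open Polynomial

namespace Pool.Agent.Lib.MP_1cf7f7_al.Two

variable {k : Type} [Field k]

/-- the coordinate ring of the plane: inner variable `a`, outer variable `b` -/
abbrev R (k : Type) [Field k] := k[X][X]

/-- derivative in the inner variable -/
noncomputable def da : Derivation k (R k) (R k) :=
  PolynomialModule.equivPolynomialSelf.compDer
    ((derivative' : Derivation k k[X] k[X]).mapCoeffs)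

theorem coeff_da (p : R k) (n : ℕ) : (da p).coeff n = derivative (p.coeff n) := rfl

/-- derivative in the outer variable -/
noncomputable def db : Derivation k (R k) (R k) :=
  (derivative' : Derivation k[X] (R k) (R k)).restrictScalars k

theorem db_apply (p : R k) : db p = derivative p := rfl

theorem da_mul (p q : R k) : da (p * q) = p * da q + q * da p := by simp

theorem db_mul (p q : R k) : db (p * q) = p * db q + q * db p := by simp

theorem da_db (p : R k) : da (db p) = db (da p) := by
  ext1 n
  simp [coeff_da, db_apply, coeff_derivative]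

theorem da_a : da (C X : R k) = 1 := by
  ext1 n
  rw [coeff_da, coeff_C, coeff_one]
  split_ifs <;> simp

theorem da_b : da (X : R k) = 0 := by
  ext1 n
  rw [coeff_da, coeff_X]
  split_ifs <;> simp

theorem db_a : db (C X : R k) = 0 := by simp [db_apply]

theorem db_b : db (X : R k) = 1 := by simp [db_apply]

theorem degree_da (p : R k) : (da p).degree ≤ p.degree := by
  rw [degree_le_iff_coeff_zero]
  intro m hm
  rw [coeff_da, coeff_eq_zero_of_degree_lt hm, map_zero]

theorem der_der {A : Type} [CommRing A] (h2 : (2 : A) = 0) (p : A[X]) :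
    derivative (derivative p) = 0 := by
  ext n
  rw [coeff_derivative, coeff_derivative, coeff_zero]
  obtain ⟨m, hm⟩ := Nat.even_mul_succ_self (n + 1)
  have : ((n + 1 : ℕ) : A) * ((n + 1 + 1 : ℕ) : A) = 2 * m := by
    rw [← Nat.cast_mul, hm]; push_cast; ring
  push_cast at this ⊢
  linear_combination (p.coeff (n + 1 + 1)) * this + (p.coeff (n + 1 + 1) * m) * h2

variable (h2 : (2 : k) = 0)
include h2

theorem two_in : (2 : k[X]) = 0 := by rw [← map_ofNat C 2, h2, map_zero]

theorem two_R : (2 : R k) = 0 := by rw [← map_ofNat C 2, two_in h2, map_zero]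

theorem da_da (p : R k) : da (da p) = 0 := by
  ext1 n
  rw [coeff_da, coeff_da, der_der h2, coeff_zero]

theorem db_db (p : R k) : db (db p) = 0 := der_der (two_in h2) p

omit h2 in
/-- the second order operator -/
noncomputable def D (p : R k) : R k := da (db p)

omit h2 in
theorem D_add (p q : R k) : D (p + q) = D p + D q := by simp [D]

omit h2 in
theorem D_zero : D (0 : R k) = 0 := by simp [D]

theorem D_sq (s p : R k) : D (s ^ 2 * p) = s ^ 2 * D p := by
  have h := two_R h2
  have ea : da (s ^ 2) = 0 := by rw [sq, da_mul]; linear_combination (s * da s) * h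
  have eb : db (s ^ 2) = 0 := by rw [sq, db_mul]; linear_combination (s * db s) * h
  simp only [D, db_mul, da_mul, ea, eb, mul_zero, add_zero]

omit h2 in
theorem D_smul (c : k) (p : R k) : D (c • p) = c • D p := by simp [D]

omit h2 in
theorem degree_D {p : R k} (hp : p ≠ 0) : (D p).degree < p.degree :=
  (degree_da _).trans_lt (degree_derivative_lt hp)

omit h2 in
/-- the Jacobian of two functions -/
noncomputable def br (f g : R k) : R k := da f * db g + db f * da g

/-- the basic identity -/
theorem D_br (f g h u : R k) : D (br f u * br g u * br h u) = 0 := by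
  have e := two_R h2
  simp only [D, br, db_mul, da_mul, map_add, da_da h2, db_db h2, da_db, mul_zero, add_zero,
    zero_add]
  generalize db (da f) = f3, db (da g) = g3, db (da h) = h3, db (da u) = u3, da f = f1, da g = g1,
    da h = h1, da u = u1, db f = f2, db g = g2, db h = h2, db u = u2
  grind

omit h2 in
/-- the determinant of two vectors -/
noncomputable def dt (v w : R k × R k) : R k := v.1 * w.2 + v.2 * w.1

omit h2 in
/-- the side condition: the vector points to the standard side -/
def Sd (v : R k × R k) : Prop := v.1.degree < (C X * v.2 + X * v.1).degree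

omit h2 in
/-- the cubic expression attached to a pair of vectors -/
noncomputable def cu (v v' w : R k × R k) : R k := dt v v' * dt w v' * dt v w

theorem cu_add (v v' w w' : R k × R k) :
    cu v v' (w + w') = cu v v' w + cu v v' w' + dt v v' ^ 2 * dt w w' := by
  have e := two_R h2
  simp only [cu, dt, Prod.fst_add, Prod.snd_add]
  grind

omit h2 in
theorem cu_smul (v v' w : R k × R k) (c : R k) : cu v v' (c • w) = c ^ 2 * cu v v' w := by
  simp only [cu, dt, Prod.smul_fst, Prod.smul_snd, smul_eq_mul]
  ring

theorem dvd_D_cu (v v' : R k × R k) {ι : Type} (s : Finset ι) (c : ι → R k) (w : ι → R k × R k)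
    (h : ∀ i, D (cu v v' (w i)) = 0) : dt v v' ^ 2 ∣ D (cu v v' (∑ i ∈ s, c i • w i)) := by
  classical
  induction s using Finset.induction_on with
  | empty => simp [cu, dt, D]
  | insert i s hi ih =>
    rw [Finset.sum_insert hi, cu_add h2, D_add, D_add, cu_smul, D_sq h2, D_sq h2, h, mul_zero,
      zero_add]
    exact dvd_add ih (dvd_mul_right _ _)

/-- the separation lemma -/
theorem sep {v v' : R k × R k} (h1 : dt v v' ^ 2 ∣ D (cu v v' (1, 0)))
    (h0 : dt v v' ^ 2 ∣ D (cu v v' (0, 1))) (hv : Sd v) (hv' : v' ≠ 0) : Sd v' := by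
  have e := two_R h2
  by_contra hn
  obtain ⟨p, q⟩ := v
  obtain ⟨p', q'⟩ := v'
  obtain ⟨A, hA⟩ := h1
  obtain ⟨B, hB⟩ := h0
  simp only [Sd, not_lt] at hv hn
  set Δ := dt (p, q) (p', q') with hΔ
  set y := C X * q + X * p with hy
  set y' := C X * q' + X * p' with hy'
  have hp' : p' ≠ 0 := by
    rintro rfl
    have : y' = 0 := by simpa using hn
    have : q' = 0 := by simpa [hy'] using this
    exact hv' (by simp [this])
  have hy0 : y ≠ 0 := by
    rintro h
    simp [h] at hv
  have e1 : C X * Δ = p' * y + p * y' := by
    simp only [hΔ, hy, hy', dt]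
    grind
  have d1 : (p * y').degree < (p' * y).degree := by
    rw [degree_mul, degree_mul, add_comm p'.degree]
    calc p.degree + y'.degree ≤ p.degree + p'.degree := by gcongr
      _ < y.degree + p'.degree := WithBot.add_lt_add_right (by simpa using hp') hv
  have d2 : Δ.degree = p'.degree + y.degree := by
    have := degree_add_eq_left_of_degree_lt d1
    rwa [← e1, degree_mul, degree_C X_ne_zero, zero_add, degree_mul] at this
  have hΔ0 : Δ ≠ 0 := by
    intro h
    rw [h, degree_zero, eq_comm, WithBot.add_eq_bot] at d2
    simp [hp', hy0] at d2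
  have e2 : ((C X : R k), (X : R k)) = (C X : R k) • ((1 : R k), (0 : R k)) +
      (X : R k) • ((0 : R k), (1 : R k)) := by simp
  have e3 : D (cu (p, q) (p', q') (C X, X)) = Δ ^ 2 * (1 + C X ^ 2 * A + X ^ 2 * B) := by
    rw [e2, cu_add h2, D_add, D_add, cu_smul, cu_smul, D_sq h2, D_sq h2, D_sq h2, hA, hB]
    have : D (dt ((C X : R k) • ((1 : R k), (0 : R k))) ((X : R k) • ((0 : R k), (1 : R k)))) =
        1 := by
      simp [dt, D, db_a, db_b, da_a]
    rw [this]
    ring
  have hμ : (1 + C X ^ 2 * A + X ^ 2 * B : R k) ≠ 0 := by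
    intro h
    have := congrArg (fun f : R k => (f.eval 0).eval 0) h
    simp at this
  have e4 : cu (p, q) (p', q') (C X, X) = Δ * y' * y := by
    simp only [cu, hΔ, hy, hy', dt]
    ring
  have hc : cu (p, q) (p', q') (C X, X) ≠ 0 := by
    intro h
    rw [h, D_zero] at e3
    exact mul_ne_zero (pow_ne_zero 2 hΔ0) hμ e3.symm
  have d3 := degree_D hc
  rw [e3, e4, sq, degree_mul, degree_mul, degree_mul, degree_mul] at d3
  have d4 : Δ.degree + y'.degree + y.degree ≤
      Δ.degree + Δ.degree + (1 + C X ^ 2 * A + X ^ 2 * B : R k).degree := by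
    calc Δ.degree + y'.degree + y.degree ≤ Δ.degree + p'.degree + y.degree := by gcongr
      _ = Δ.degree + Δ.degree + 0 := by rw [add_assoc, ← d2, add_zero]
      _ ≤ _ := by gcongr; exact zero_le_degree_iff.2 hμ
  exact absurd d3 (not_lt.2 d4)

end Pool.Agent.Lib.MP_1cf7f7_al.Two
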