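import Pool.Agent.Lib.MP_1cf7f7_al.Two1

/-! Characteristic two: an invariant of one-jets of coordinate systems along a plane. -/

set_option autoImplicit false

open Polynomial TrivSqZeroExt

namespace Pool.Agent.Lib.MP_1cf7f7_al.Two

variable {k : Type} [Field k]

/-- one-jets in the two normal directions -/
abbrev Om (k : Type) [Field k] := TrivSqZeroExt (R k) (R k × R k)

/-- the full gradient of a jet -/
noncomputable def gr (F : Om k) : (R k × R k) × R k × R k := (F.snd, da F.fst, db F.fst)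

theorem gr_add (F G : Om k) : gr (F + G) = gr F + gr G := by simp [gr]

theorem gr_smul (c : k) (F : Om k) : gr (c • F) = c • gr F := by simp [gr]

theorem gr_mul (F G : Om k) : gr (F * G) = F.fst • gr G + G.fst • gr F := by
  simp [gr, snd_mul]

theorem gr_span {s : Set (Om k)} {F : Om k} (hF : F ∈ Algebra.adjoin k s) :
    gr F ∈ Submodule.span (R k) (gr '' s) := by
  induction hF using Algebra.adjoin_induction with
  | mem x hx => exact Submodule.subset_span ⟨x, hx, rfl⟩
  | algebraMap r =>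
    have : gr (algebraMap k (Om k) r) = 0 := by
      rw [Algebra.algebraMap_eq_smul_one, gr_smul]
      simp [gr]
    rw [this]; exact Submodule.zero_mem _
  | add x y _ _ hx hy => rw [gr_add]; exact Submodule.add_mem _ hx hy
  | mul x y _ _ hx hy =>
    rw [gr_mul]; exact Submodule.add_mem _ (Submodule.smul_mem _ _ hy) (Submodule.smul_mem _ _ hx)

theorem gr_coef (u : Fin 4 → Om k) (m : Fin 4) {F : Om k}
    (hF : F ∈ Algebra.adjoin k (u '' {j | j ≠ m})) :
    ∃ r : Fin 4 → R k, r m = 0 ∧ gr F = ∑ i, r i • gr (u i) := by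
  have h := gr_span hF
  generalize gr F = x at h
  induction h using Submodule.span_induction with
  | mem x hx =>
    obtain ⟨_, ⟨j, hj, rfl⟩, rfl⟩ := hx
    exact ⟨Pi.single j 1, Pi.single_eq_of_ne (Ne.symm hj) _, by
      simp [Pi.single_apply, ite_smul]⟩
  | zero => exact ⟨0, rfl, by simp⟩
  | add x y _ _ hx hy =>
    obtain ⟨r, h1, rfl⟩ := hx
    obtain ⟨t, h3, rfl⟩ := hy
    exact ⟨r + t, by simp [h1, h3], by simp [add_smul, Finset.sum_add_distrib]⟩
  | smul c x _ hx =>
    obtain ⟨r, h1, rfl⟩ := hx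
    exact ⟨c • r, by simp [h1], by simp [Finset.smul_sum, smul_smul]⟩

/-- four distinct indices -/
def Ds (i j l m : Fin 4) : Prop := i ≠ j ∧ i ≠ l ∧ i ≠ m ∧ j ≠ l ∧ j ≠ m ∧ l ≠ m

instance (i j l m : Fin 4) : Decidable (Ds i j l m) := by unfold Ds; infer_instance

theorem ds1 : ∀ m i l : Fin 4, ¬m = i → ¬l = i → ¬m = l →
    ∃ n, Ds m i l n ∧ Ds l i m n ∧ Ds m l i n := by decide

theorem ds2 : ∀ m : Fin 4, ∃ a b d, Ds a b d m := by decide

theorem ds3 : ∀ i j l m : Fin 4, Ds i j l m → Ds i m l j ∧ Ds j m l i := by decide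

theorem ds4 : ∀ i j l n m : Fin 4, Ds i j l n →
    (m = n ∨ m = j) ∨ (m = l ∧ Ds i j n l) ∨ (m = i ∧ Ds j i l n) := by decide

theorem sum_ds {M : Type} [AddCommMonoid M] {i j l m : Fin 4} (h : Ds i j l m) (f : Fin 4 → M) :
    ∑ n, f n = f i + f j + f l + f m := by
  have e : (Finset.univ : Finset (Fin 4)) = {i, j, l, m} := by revert i j l m; decide
  obtain ⟨h1, h2, h3, h4, h5, h6⟩ := h
  rw [e, Finset.sum_insert (by simp [h1, h2, h3]), Finset.sum_insert (by simp [h4, h5]),
    Finset.sum_pair h6]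
  simp only [add_assoc]

/-- the dual frame of the normal bundle -/
structure Fr (u : Fin 4 → Om k) (v : Fin 4 → R k × R k) (c : k) : Prop where
  ne : c ≠ 0
  g1 : ∑ i, (u i).snd.1 • v i = (1, 0)
  g2 : ∑ i, (u i).snd.2 • v i = (0, 1)
  pl : ∀ i j l m, Ds i j l m → dt (v i) (v j) = c • br (u l).fst (u m).fst

/-- the invariant -/
def Inv (u : Fin 4 → Om k) : Prop := ∃ v c, Fr u v c ∧ ∀ i, v i ≠ 0 → Sd (v i)

theorem dt_comm (v w : R k × R k) : dt v w = dt w v := by simp only [dt]; ring

theorem br_comm (f g : R k) : br f g = br g f := by simp only [br]; ring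

variable (h2 : (2 : k) = 0)
include h2

theorem dt_self (v : R k × R k) : dt v v = 0 := by
  have e := two_R h2
  simp only [dt]; grind

theorem br_self (f : R k) : br f f = 0 := by
  have e := two_R h2
  simp only [br]; grind

theorem Fr.sd {u : Fin 4 → Om k} {v : Fin 4 → R k × R k} {c : k} (h : Fr u v c) {m i : Fin 4}
    (hm : Sd (v m)) (hi : v i ≠ 0) : Sd (v i) := by
  by_cases hmi : m = i
  · exact hmi ▸ hm
  have key : ∀ l, D (cu (v m) (v i) (v l)) = 0 := fun l => by
    by_cases h1 : l = i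
    · rw [cu, h1, dt_self h2, mul_zero, zero_mul, D_zero]
    by_cases h3 : m = l
    · rw [cu, h3, dt_self h2, mul_zero, D_zero]
    obtain ⟨n, a1, a2, a3⟩ := ds1 m i l hmi h1 h3
    rw [cu, h.pl _ _ _ _ a1, h.pl _ _ _ _ a2, h.pl _ _ _ _ a3]
    simp only [smul_mul_assoc, mul_smul_comm, D_smul, D_br h2, smul_zero]
  exact sep h2 (h.g1 ▸ dvd_D_cu h2 _ _ _ _ _ key) (h.g2 ▸ dvd_D_cu h2 _ _ _ _ _ key) hm hi

/-- an elementary move -/
theorem Inv.move {u u' : Fin 4 → Om k} (h : Inv u) {m : Fin 4} {c : k} (hc : c ≠ 0) {F : Om k}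
    (hF : F ∈ Algebra.adjoin k (u '' {j | j ≠ m})) (hm : u' m = c • u m + F)
    (ho : ∀ j, j ≠ m → u' j = u j) : Inv u' := by
  have e := two_R h2
  obtain ⟨v, c₀, hf, hs⟩ := h
  obtain ⟨r, hr, hg⟩ := gr_coef u m hF
  set γ : R k := algebraMap k (R k) c with hγ
  set δ : R k := algebraMap k (R k) c⁻¹ with hδ
  have hγδ : γ * δ = 1 := by rw [hγ, hδ, ← map_mul, mul_inv_cancel₀ hc, map_one]
  have hg' : gr (u' m) = γ • gr (u m) + ∑ i, r i • gr (u i) := by
    rw [hm, gr_add, gr_smul, hg, hγ, algebraMap_smul]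
  have s1 : (u' m).snd.1 = γ * (u m).snd.1 + ∑ i, r i * (u i).snd.1 := by
    simpa [gr, Prod.fst_sum] using congrArg (fun x => x.1.1) hg'
  have s2 : (u' m).snd.2 = γ * (u m).snd.2 + ∑ i, r i * (u i).snd.2 := by
    simpa [gr, Prod.fst_sum, Prod.snd_sum] using congrArg (fun x => x.1.2) hg'
  have s3 : da (u' m).fst = γ * da (u m).fst + ∑ i, r i * da (u i).fst := by
    simpa [gr, Prod.fst_sum, Prod.snd_sum] using congrArg (fun x => x.2.1) hg'
  have s4 : db (u' m).fst = γ * db (u m).fst + ∑ i, r i * db (u i).fst := by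
    simpa [gr, Prod.fst_sum, Prod.snd_sum] using congrArg (fun x => x.2.2) hg'
  let v' : Fin 4 → R k × R k := fun i => if i = m then δ • v m else v i + (δ * r i) • v m
  have vm : v' m = δ • v m := by simp [v']
  have vo : ∀ i, i ≠ m → v' i = v i + (δ * r i) • v m := fun i hi => by simp [v', hi]
  obtain ⟨a, b, d, hD⟩ := ds2 m
  have gen : ∀ (s s' : Fin 4 → R k), s' m = γ * s m + ∑ i, r i * s i →
      (∀ j, j ≠ m → s' j = s j) → ∑ i, s' i • v' i = ∑ i, s i • v i := fun s s' e1 e2 => by
    obtain ⟨-, -, a1, -, a2, a3⟩ := id hD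
    rw [sum_ds hD, sum_ds hD, e1, sum_ds hD, vm, vo _ a1, vo _ a2, vo _ a3, e2 _ a1, e2 _ a2,
      e2 _ a3, hr]
    ext1 <;> simp only [Prod.fst_add, Prod.snd_add, Prod.smul_fst, Prod.smul_snd, smul_eq_mul] <;>
      grind
  have brm : ∀ i j l, Ds i j l m → br (u l).fst (u' m).fst =
      γ * br (u l).fst (u m).fst + r i * br (u l).fst (u i).fst + r j * br (u l).fst (u j).fst :=
    fun i j l hd => by
      simp only [br, s3, s4, sum_ds hd, hr]
      grind
  have sm : ∀ x : R k, (c₀ * c⁻¹) • x = δ * (c₀ • x) := fun x => by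
    rw [hδ, ← Algebra.smul_def, smul_smul, mul_comm]
  have p1 : ∀ i j l, Ds i j l m → dt (v' i) (v' j) = (c₀ * c⁻¹) • br (u' l).fst (u' m).fst :=
    fun i j l hd => by
      have d1 := ds3 i j l m hd
      obtain ⟨-, -, a1, -, a2, a3⟩ := id hd
      have q1 := hf.pl _ _ _ _ hd
      have q2 := hf.pl _ _ _ _ d1.1
      have q3 := hf.pl _ _ _ _ d1.2
      rw [vo _ a1, vo _ a2, ho _ a3, brm i j l hd, sm, smul_add, smul_add, ← mul_smul_comm,
        ← mul_smul_comm, ← mul_smul_comm, ← q1, ← q2, ← q3]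
      simp only [dt, Prod.fst_add, Prod.snd_add, Prod.smul_fst, Prod.smul_snd, smul_eq_mul]
      grind
  have p2 : ∀ i j l, Ds i m j l → dt (v' i) (v' m) = (c₀ * c⁻¹) • br (u' j).fst (u' l).fst :=
    fun i j l hd => by
      obtain ⟨a1, -, -, a2, a3, -⟩ := id hd
      rw [vo _ a1, vm, ho _ a2.symm, ho _ a3.symm, sm, ← hf.pl _ _ _ _ hd]
      simp only [dt, Prod.fst_add, Prod.snd_add, Prod.smul_fst, Prod.smul_snd, smul_eq_mul]
      grind
  have hf' : Fr u' v' (c₀ * c⁻¹) := by
    refine ⟨mul_ne_zero hf.ne (inv_ne_zero hc), ?_, ?_, fun i j l n hd => ?_⟩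
    · rw [← hf.g1]; exact gen _ _ s1 fun j hj => by rw [ho j hj]
    · rw [← hf.g2]; exact gen _ _ s2 fun j hj => by rw [ho j hj]
    · rcases ds4 i j l n m hd with (rfl | rfl) | ⟨rfl, hd'⟩ | ⟨rfl, hd'⟩
      · exact p1 _ _ _ hd
      · exact p2 _ _ _ hd
      · rw [br_comm]; exact p1 _ _ _ hd'
      · rw [dt_comm]; exact p2 _ _ _ hd'
  refine ⟨v', _, hf', fun i hi => ?_⟩
  by_cases h0 : v m = 0
  · by_cases him : i = m
    · rw [him, vm, h0, smul_zero] at hi; exact absurd rfl hi
    · rw [vo _ him, h0, smul_zero, add_zero] at hi ⊢; exact hs i hi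
  · refine hf'.sd h2 (m := m) ?_ hi
    have := hs m h0
    have hδ0 : δ.degree = 0 := by
      rw [hδ, Polynomial.algebraMap_apply]; exact degree_C (by simp [hc])
    rw [vm]
    simp only [Sd, Prod.smul_fst, Prod.smul_snd, smul_eq_mul] at this ⊢
    rwa [show C X * (δ * (v m).2) + X * (δ * (v m).1) = δ * (C X * (v m).2 + X * (v m).1) by ring,
      degree_mul, degree_mul, hδ0, zero_add, zero_add]

/-- a linear change of coordinates -/
theorem Inv.lin (M : Matrix (Fin 4) (Fin 4) k) (hM : M.det ≠ 0) :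
    ∀ u : Fin 4 → Om k, Inv u → Inv fun i => ∑ j, M i j • u j := by
  refine Matrix.diagonal_transvection_induction_of_det_ne_zero
    (fun M => ∀ u : Fin 4 → Om k, Inv u → Inv fun i => ∑ j, M i j • u j) M hM ?_ ?_ ?_
  · intro d hd u hu
    rw [Matrix.det_diagonal, Finset.prod_ne_zero_iff] at hd
    have key : ∀ s : Finset (Fin 4), Inv fun i => if i ∈ s then d i • u i else u i := fun s => by
      induction s using Finset.induction_on with
      | empty => simpa using hu
      | insert a s ha ih =>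
        exact ih.move h2 (m := a) (hd a (Finset.mem_univ a)) (zero_mem _) (by simp [ha])
          fun j hj => by simp [hj]
    simpa [Matrix.diagonal_apply, ite_smul] using key Finset.univ
  · rintro ⟨i, j, hij, c⟩ u hu
    refine hu.move h2 (m := i) one_ne_zero (F := c • u j)
      (Subalgebra.smul_mem _ (Algebra.subset_adjoin (Set.mem_image_of_mem u hij.symm)) c) ?_ fun l hl => ?_
    · simp [Matrix.transvection, Matrix.one_apply, Matrix.single_apply, add_smul, ite_smul,
        Finset.sum_add_distrib]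
    · simp [Matrix.transvection, Matrix.one_apply, ite_smul, Ne.symm hl]
  · intro A B _ _ hA hB u hu
    have := hA _ (hB u hu)
    simp only [Finset.smul_sum, smul_smul] at this
    simp only [Matrix.mul_apply, Finset.sum_smul]
    convert this using 2
    exact Finset.sum_comm

omit h2 in
/-- the jets of the standard coordinates -/
noncomputable def std (k : Type) [Field k] : Fin 4 → Om k :=
  ![inr (1, 0), inr (0, 1), inl (C X), inl X]

omit h2 in
theorem inv_std : Inv (std k) := by
  refine ⟨![(1, 0), (0, 1), 0, 0], 1, ⟨one_ne_zero, ?_, ?_, fun i j l m h => ?_⟩, fun i hi => ?_⟩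
  · simp [std, Fin.sum_univ_four]
  · simp [std, Fin.sum_univ_four]
  · fin_cases i <;> fin_cases j <;> fin_cases l <;> fin_cases m <;>
      first
        | exact absurd h (by decide)
        | simp [std, dt, br, da_a, da_b, db_a, db_b]
  · fin_cases i
    · simp [Sd]
    · simp [Sd, degree_C (X_ne_zero (R := k))]
    · simp at hi
    · simp at hi

theorem not_inv {u : Fin 4 → Om k} (h : u 0 = inr (1 + C X * X, -(C X * C X))) : ¬Inv u := by
  have e := two_R h2
  rintro ⟨v, c, hf, hs⟩
  have z : ∀ i j l, Ds i j 0 l → dt (v i) (v j) = 0 := fun i j l hd => by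
    rw [hf.pl _ _ _ _ hd, h]; simp [br]
  have z12 := z 1 2 3 (by decide)
  have z13 := z 1 3 2 (by decide)
  have z23 := z 2 3 1 (by decide)
  have g1 := hf.g1
  have g2 := hf.g2
  simp only [Fin.sum_univ_four, h, snd_inr, Prod.ext_iff, Prod.fst_add, Prod.snd_add,
    Prod.smul_fst, Prod.smul_snd, smul_eq_mul] at g1 g2
  obtain ⟨g11, g12⟩ := g1
  obtain ⟨g21, g22⟩ := g2
  simp only [dt] at z12 z13 z23
  have key : ∀ j, (v j).1 = dt (v 0) (v j) * (C X * C X) →
      (v j).2 = dt (v 0) (v j) * (1 + C X * X) → v j = 0 := fun j e1 e2 => by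
    by_contra hj
    have := hs j hj
    have e3 : C X * (v j).2 + X * (v j).1 = dt (v 0) (v j) * C X := by
      rw [e1, e2]; grind
    rw [Sd, e3, e1, degree_mul, degree_mul, degree_mul, degree_C X_ne_zero] at this
    simp at this
  have k1 := key 1 (by simp only [dt]; grind) (by simp only [dt]; grind)
  have k2 := key 2 (by simp only [dt]; grind) (by simp only [dt]; grind)
  have k3 := key 3 (by simp only [dt]; grind) (by simp only [dt]; grind)
  simp only [k1, k2, k3, Prod.fst_zero, Prod.snd_zero, mul_zero, add_zero] at g11 g12 g21 g22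
  have : (1 : R k) = 0 := by grind
  exact one_ne_zero this

/-- the invariant is preserved by the tame group -/
theorem inv_tame {A : Type} [Ring A] [Algebra k A] (z : Fin 4 → A) (hz : LinearIndependent k z)
    {g : A ≃ₐ[k] A} (hg : g ∈ Subgroup.closure {g : A ≃ₐ[k] A |
      (∀ i, g (z i) ∈ Submodule.span k (Set.range z)) ∨
      ∃ (i : Fin 4) (c : k) (f : A), c ≠ 0 ∧ f ∈ Algebra.adjoin k (z '' {j | j ≠ i}) ∧
        g (z i) = c • z i + f ∧ ∀ j, j ≠ i → g (z j) = z j}) :
    ∀ j : A →ₐ[k] Om k, Inv (fun i => j (z i)) ↔ Inv fun i => j (g (z i)) := by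
  induction hg using Subgroup.closure_induction with
  | mem g hg =>
    intro j
    rcases hg with hg | ⟨m, c, f, hc, hf, h1, h3⟩
    · choose M hM using fun i => (Submodule.mem_span_range_iff_exists_fun k).1 (hg i)
      have hd : (Matrix.of M).det ≠ 0 := by
        intro h0
        obtain ⟨w, hw, hw0⟩ := Matrix.exists_vecMul_eq_zero_iff.2 h0
        have : g (∑ i, w i • z i) = 0 := by
          simp only [map_sum, map_smul, ← hM, Finset.smul_sum, smul_smul]
          rw [Finset.sum_comm]
          refine Finset.sum_eq_zero fun l _ => ?_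
          rw [← Finset.sum_smul]
          have := congrFun hw0 l
          simp only [Matrix.vecMul, dotProduct, Matrix.of_apply, Pi.zero_apply] at this
          rw [this, zero_smul]
        exact hw (funext (Fintype.linearIndependent_iff.1 hz w ((map_eq_zero_iff g g.injective).1 this)))
      have e1 : (fun i => j (g (z i))) = fun i => ∑ l, Matrix.of M i l • j (z l) := by
        funext i; simp [← hM]
      rw [e1]
      refine ⟨Inv.lin h2 _ hd _, fun h => ?_⟩
      have := Inv.lin h2 (Matrix.of M)⁻¹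
        (Matrix.isUnit_nonsing_inv_det _ (Ne.isUnit hd)).ne_zero _ h
      convert this using 2 with i
      simp only [Finset.smul_sum, smul_smul]
      rw [Finset.sum_comm]
      simp only [← Finset.sum_smul, ← Matrix.mul_apply, Matrix.nonsing_inv_mul _ (Ne.isUnit hd)]
      simp [Matrix.one_apply, ite_smul]
    · have hj : j f ∈ Algebra.adjoin k ((fun i => j (z i)) '' {l | l ≠ m}) := by
        have := Subalgebra.mem_map.2 ⟨f, hf, (rfl : j f = j f)⟩
        rwa [AlgHom.map_adjoin, Set.image_image] at this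
      refine ⟨fun h => h.move h2 hc hj (by simp [h1]) fun l hl => by simp [h3 l hl],
        fun h => h.move h2 (m := m) (inv_ne_zero hc) (F := -(c⁻¹ • j f)) ?_
          (by simp [h1, smul_smul, inv_mul_cancel₀ hc]) fun l hl => by simp [h3 l hl]⟩
      rw [Set.image_congr (s := {l | l ≠ m}) (f := fun i => j (g (z i))) (g := fun i => j (z i))
        fun l hl => congrArg j (h3 l hl)]
      exact neg_mem (Subalgebra.smul_mem _ hj _)
  | one => intro j; rfl
  | mul g g' _ _ hg hg' =>
    intro j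
    exact (hg j).trans (hg' (j.comp (g : A →ₐ[k] A)))
  | inv g _ hg =>
    intro j
    have := hg (j.comp ((g⁻¹ : A ≃ₐ[k] A) : A →ₐ[k] A))
    simpa using this.symm

end Pool.Agent.Lib.MP_1cf7f7_al.Two
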