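import Pool.Agent.Lib.MP_1cf7f7_al.Defs
import Pool.Agent.Lib.MP_1cf7f7_al.Two2

/-! Over every field of characteristic two the Yagzhev automorphism of the free algebra on
`x₁, x₂, y₁, y₂` (indices `0, 1, 2, 3`) is wild. -/

namespace Pool.Agent.Lib.MP_1cf7f7_al.WildCharTwoRetired

open Pool.Agent.Lib.MP_1cf7f7_al FreeAlgebra MvPolynomial

theorem result (k : Type) [Field k] [CharP k 2] :
    ∃ φ : FreeAlgebra k (Fin 4) ≃ₐ[k] FreeAlgebra k (Fin 4),
      φ (ι k 0) = ι k 0 + ι k 2 * (ι k 0 * ι k 3 - ι k 2 * ι k 1) ∧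
      φ (ι k 1) = ι k 1 + (ι k 0 * ι k 3 - ι k 2 * ι k 1) * ι k 3 ∧
      φ (ι k 2) = ι k 2 ∧ φ (ι k 3) = ι k 3 ∧ φ ∉ Tame k 4 ∧
      ∀ g ∈ Tame k 4, g (ι k 0) ≠ φ (ι k 0) := by
  have h2 : (2 : k) = 0 := by exact_mod_cast CharP.cast_eq_zero k 2
  have hj : Two.std k 0 + Two.std k 2 * (Two.std k 0 * Two.std k 3 - Two.std k 2 * Two.std k 1) =
      TrivSqZeroExt.inr (1 + Polynomial.C Polynomial.X * Polynomial.X,
        -(Polynomial.C Polynomial.X * Polynomial.C Polynomial.X)) := by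
    ext1
    · simp [Two.std]
    · simp [Two.std, TrivSqZeroExt.snd_mul]
      ring
  let E : FreeAlgebra k (Fin 4) → FreeAlgebra k (Fin 4) →ₐ[k] FreeAlgebra k (Fin 4) := fun p =>
    FreeAlgebra.lift k ![ι k 0 + ι k 2 * p, ι k 1 + p * ι k 3, ι k 2, ι k 3]
  let w : FreeAlgebra k (Fin 4) := ι k 0 * ι k 3 - ι k 2 * ι k 1
  have e1 : (E w).comp (E (-w)) = AlgHom.id k _ := by
    apply FreeAlgebra.hom_ext
    funext i
    fin_cases i <;> simp [E, w] <;> noncomm_ring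
  have e2 : (E (-w)).comp (E w) = AlgHom.id k _ := by
    apply FreeAlgebra.hom_ext
    funext i
    fin_cases i <;> simp [E, w] <;> noncomm_ring
  have hz : LinearIndependent k (ι k : Fin 4 → FreeAlgebra k (Fin 4)) :=
    LinearIndependent.of_comp (FreeAlgebra.lift k (X : Fin 4 → MvPolynomial (Fin 4) k)).toLinearMap
      (by simpa [Function.comp_def] using linearIndependent_X (Fin 4) k)
  have key : ∀ g ∈ Tame k 4, g (ι k 0) ≠ AlgEquiv.ofAlgHom (E w) (E (-w)) e1 e2 (ι k 0) := by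
    intro g hg hne
    refine Two.not_inv h2 ?_ ((Two.inv_tame h2 _ hz hg (FreeAlgebra.lift k (Two.std k))).1
      (by simpa using Two.inv_std))
    simp only [hne, ← hj]
    simp [E, w]
  exact ⟨AlgEquiv.ofAlgHom (E w) (E (-w)) e1 e2, by simp [E, w], by simp [E, w],
    by simp [E], by simp [E], fun h => key _ h rfl, key⟩

end Pool.Agent.Lib.MP_1cf7f7_al.WildCharTwoRetired
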