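import Pool.Agent.Lib.MP_1cf7f7_al.Final

/-! The Yagzhev automorphism of the free algebra on `x₁, x₂, y₁, y₂` (indices `0, 1, 2, 3`) is
not tame over any linear form in `y₁, y₂`, over every field. -/

namespace Pool.Agent.Lib.MP_1cf7f7_al.WildOverLineRetired

open Pool.Agent.Lib.MP_1cf7f7_al FreeAlgebra

theorem result (k : Type) [Field k] :
    ∃ φ : FreeAlgebra k (Fin 4) ≃ₐ[k] FreeAlgebra k (Fin 4),
      φ (ι k 0) = ι k 0 + ι k 2 * (ι k 0 * ι k 3 - ι k 2 * ι k 1) ∧
      φ (ι k 1) = ι k 1 + (ι k 0 * ι k 3 - ι k 2 * ι k 1) * ι k 3 ∧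
      φ (ι k 2) = ι k 2 ∧ φ (ι k 3) = ι k 3 ∧
      ∀ α β : k, (α ≠ 0 ∨ β ≠ 0) →
        ∀ g ∈ TameOver (α • ι k (2 : Fin 4) + β • ι k 3), g (ι k 0) ≠ φ (ι k 0) := by
  let E : FreeAlgebra k (Fin 4) → FreeAlgebra k (Fin 4) →ₐ[k] FreeAlgebra k (Fin 4) := fun p =>
    FreeAlgebra.lift k ![ι k 0 + ι k 2 * p, ι k 1 + p * ι k 3, ι k 2, ι k 3]
  let w : FreeAlgebra k (Fin 4) := ι k 0 * ι k 3 - ι k 2 * ι k 1
  have h1 : (E w).comp (E (-w)) = AlgHom.id k _ := by
    apply FreeAlgebra.hom_ext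
    funext i
    fin_cases i <;> simp [E, w] <;> noncomm_ring
  have h2 : (E (-w)).comp (E w) = AlgHom.id k _ := by
    apply FreeAlgebra.hom_ext
    funext i
    fin_cases i <;> simp [E, w] <;> noncomm_ring
  refine ⟨AlgEquiv.ofAlgHom (E w) (E (-w)) h1 h2, by simp [E, w], by simp [E, w],
    by simp [E], by simp [E], fun α β hαβ g hg hne => ?_⟩
  have hx : g (ι k 0) = ι k 0 + ι k 2 * (ι k 0 * ι k 3 - ι k 2 * ι k 1) := by
    rw [hne]; simp [E, w]
  have hl : α • ι k (2 : Fin 4) + β • ι k 3 ∈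
      Submodule.span k (Set.range (ι k (X := Fin 4))) :=
    Submodule.add_mem _ (Submodule.smul_mem _ _ (Submodule.subset_span ⟨2, rfl⟩))
      (Submodule.smul_mem _ _ (Submodule.subset_span ⟨3, rfl⟩))
  have h2ne : t2 k ≠ 0 := fun h => by
    have := congrArg (fun f : Cusp k => (f : Polynomial k).coeff 2) h
    simp [t2] at this
  have h3ne : t3 k ≠ 0 := fun h => by
    have := congrArg (fun f : Cusp k => (f : Polynomial k).coeff 3) h
    simp [t3] at this
  by_cases hβ : β = 0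
  · have hα : α ≠ 0 := hαβ.resolve_right (not_not.2 hβ)
    subst hβ
    have hθ : (![0, 0, t2 k, 0] - ![0, 0, t2 k, t3 k] : Fin 4 → Cusp k) =
        t3 k • ![0, 0, 0, -1] := by
      funext i
      fin_cases i <;> simp
      ring
    have hP := (tameOver_le (R := Cusp k) (Ideal.span {t3 k}) hl hg).2
      ![0, 0, t2 k, 0] ![0, 0, t2 k, t3 k] (fun i => by fin_cases i <;> simp)
    rw [hθ] at hP
    have hB := blk_of_mem (i := 0) (j := 1) (by
      simp only [t3]; exact pow_dvd_pow _ (by norm_num)) h3ne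
      (fun ξ hξ => ⟨-ξ 3, by
        have : ξ 2 = 0 := by simpa [hα] using hξ
        funext i; fin_cases i <;> simp [this]
        ring⟩) hP
    refine cohn_ne (by decide) (by simp) (by simp) hB (u := t2 k) (v := 0)
      (h := Polynomial.X ^ 2) (c₁ := 1) (c₂ := 0) (x := 1) (y := 0)
      (by simp [t2]) (by simp) (dvd_pow_self _ (by norm_num)) (by simp)
      (by simp [psi]) (fun ξ => ?_) (fun ξ => ?_)
    · rw [J_apply, hx]; simp
    · rw [J_apply, hx]; simp
  · have hθ : (![0, 0, t2 k, t3 k - (α / β) • t2 k] - ![0, 0, 0, t3 k] : Fin 4 → Cusp k) =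
        t2 k • ![0, 0, 1, -((α / β) • 1)] := by
      funext i
      fin_cases i <;> simp
      simp only [Algebra.smul_def]
      ring
    have hP := (tameOver_le (R := Cusp k) (Ideal.span {t2 k}) hl hg).2
      ![0, 0, t2 k, t3 k - (α / β) • t2 k] ![0, 0, 0, t3 k] (fun i => by
        rw [← Pi.sub_apply, hθ]
        exact Ideal.mul_mem_right _ _ (Ideal.mem_span_singleton_self _))
    rw [hθ] at hP
    have hB := blk_of_mem (i := 0) (j := 1) (by simp only [t2]; exact dvd_rfl) h2ne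
      (fun ξ hξ => ⟨ξ 2, by
        have h3 : α • ξ 2 + β • ξ 3 = 0 := by simpa using hξ
        have : ξ 3 = -((α / β) • ξ 2) := by
          have h4 : ξ 3 = β⁻¹ • (β • ξ 3) := by rw [smul_smul, inv_mul_cancel₀ hβ, one_smul]
          rw [h4, eq_neg_of_add_eq_zero_right h3, smul_neg, smul_smul, div_eq_inv_mul]
        funext i; fin_cases i <;> simp [this]
        simp only [Algebra.smul_def]
        ring⟩) hP
    refine cohn_ne (by decide) (by simp) (by simp) hB (u := 0) (v := t3 k - (α / β) • t2 k)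
      (h := Polynomial.X ^ 3 - (α / β) • Polynomial.X ^ 2) (c₁ := 0) (c₂ := 1) (x := 0) (y := 1)
      (by simp) (by simp [t2, t3]) (dvd_sub (dvd_pow_self _ (by norm_num))
        (dvd_smul_of_dvd _ (dvd_pow_self _ (by norm_num)))) (by simp)
      (by simp [psi]) (fun ξ => ?_) (fun ξ => ?_)
    · rw [J_apply, hx]; simp
    · rw [J_apply, hx]; simp

end Pool.Agent.Lib.MP_1cf7f7_al.WildOverLineRetired
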